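import Pool.Agent.Helper65.Gen3.Final
import Pool.Agent.Helper20.MH.Defs

/-!
# Reductions to arbitrary sets: definitions

The slices of the language are the parities of the values of polynomials of degree less than `2 k`
modulo a prime number `p > 2 ^ n`, as in `Pool.Agent.Helper65.Gen3`.
-/

namespace Pool.Agent.Helper20.NS5

open Pool.Agent.Helper65.LinSpace Pool.Agent.Helper78.Avg Finset
open Pool.Agent.Helper65.Gen3 (pP hs)

/-! ### Classes of numbers with the same value -/

section

variable {β : Type} (F : ℕ → β) (n : ℕ)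

open Classical in
/-- The size of the class of `z`: the number of the `z' < 2 ^ n` with `F z' = F z`. -/
noncomputable def cs (z : ℕ) : ℕ := ((range (2 ^ n)).filter fun z' => F z' = F z).card

open Classical in
/-- The sum of `g` over the class of `z`. -/
noncomputable def dev (g : ℕ → ℤ) (z : ℕ) : ℤ :=
  ∑ z' ∈ (range (2 ^ n)).filter (fun z' => F z' = F z), g z'

/-- The weighted moment. -/
noncomputable def Yv (k : ℕ) (g : ℕ → ℤ) : ℤ :=
  ∑ z ∈ range (2 ^ n), dev F n g z ^ (2 * k) * 2 ^ ((k + 1) * (n - Nat.log 2 (cs F n z)))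

/-- About `2 ^ n` times the number of classes. -/
noncomputable def Mv : ℕ := ∑ z ∈ range (2 ^ n), 2 ^ (n - Nat.log 2 (cs F n z))

open Classical in
/-- The number of the values of `F` on `range (2 ^ n)` which are in `T`. -/
noncomputable def nv (T : Set β) : ℕ := (((range (2 ^ n)).image F).filter fun b => b ∈ T).card

open Classical in
/-- The sum of `g` over the numbers with values in `T`. -/
noncomputable def sv (T : Set β) (g : ℕ → ℤ) : ℤ :=
  ∑ z ∈ (range (2 ^ n)).filter (fun z => F z ∈ T), g z

end

/-- The bound for the code `e` and the advice with number `a`. -/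
def thr (k n e a M : ℕ) : ℕ :=
  (2 * k) ^ (2 * k + 1) * M * (Nat.log 2 a + 1) ^ 2 * 2 ^ (k * (n + 1) + Nat.log 2 a + 2 * e + 4)

/-! ### The language. `E n e a z z' = 0` if the device `e` with advice `a` has the same value on
the words of length `n` with the numbers `z` and `z'`. -/

section

variable (E : ℕ → ℕ → ℕ → ℕ → ℕ → ℕ) (k : ℕ)

/-- The size of the class. -/
def szN (n e a z : ℕ) : ℕ := ∑ z' ∈ range (2 ^ n), ifz (E n e a z z') 1 0

/-- The number of the elements of the class with odd value of the polynomial. -/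
noncomputable def odN (n e a s z : ℕ) : ℕ :=
  ∑ z' ∈ range (2 ^ n), ifz (E n e a z z') (hs (pP n) (2 * k) s z' % 2) 0

/-- The weight of the class. -/
def wN (n e a z : ℕ) : ℕ := 2 ^ (n - Nat.log 2 (szN E n e a z))

/-- The weighted moment. -/
noncomputable def YN (n e a s : ℕ) : ℕ :=
  ∑ z ∈ range (2 ^ n),
    ((szN E n e a z - 2 * odN E k n e a s z) + (2 * odN E k n e a s z - szN E n e a z)) ^ (2 * k) *
      wN E n e a z ^ (k + 1)

/-- About `2 ^ n` times the number of classes. -/
def MN (n e a : ℕ) : ℕ := ∑ z ∈ range (2 ^ n), wN E n e a z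

/-- The bound. -/
def thrN (n e a : ℕ) : ℕ :=
  (2 * k) ^ (2 * k + 1) * MN E n e a * (Nat.log 2 a + 1) ^ 2 *
    2 ^ (k * (n + 1) + min (Nat.log 2 a) (k * n) + 2 * min e n + 4)

/-- Nonzero if the moment is too large. -/
noncomputable def vio (n e a s : ℕ) : ℕ := lt01 (thrN E k n e a) (YN E k n e a s)

/-- The number of devices for which the polynomial with number `s` is bad. -/
noncomputable def badN (n s : ℕ) : ℕ :=
  ∑ e ∈ range (n + 1), ∑ a ∈ range (2 ^ (k * n + 1)), vio E k n e a s

/-- The first good polynomial. -/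
noncomputable def hid (n : ℕ) : ℕ := ∑ i ∈ range (pP n ^ (2 * k)),
  ifz (∑ j ∈ range (i + 1), ifz (badN E k n j) 1 0) 1 0

/-- The language. -/
def hL : Set (List Bool) :=
  {w | hs (pP w.length) (2 * k) (hid E k w.length) (num w - 2 ^ w.length) % 2 = 1}

end

/-! ### Queries -/

open Classical in
/-- The first `i` answers, if the answer after the answers `u` is yes if and only if `G u`. -/
noncomputable def ans (G : List Bool → Prop) : ℕ → List Bool
  | 0 => []
  | i + 1 => ans G i ++ [decide (G (ans G i))]

/-! ### The universal device -/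

section

/-- The number of the first letters `1` of the word with number `a` (if it has a letter `0`). -/
def tz (a : ℕ) : ℕ := ∑ i ∈ range (Nat.log 2 a + 1), ifz ((a + 1) % 2 ^ (min i (Nat.log 2 a) + 1)) 1 0

/-- The letter number `t` of the set `J` in the advice `1^i 0 J b α`. -/
def jb (a t : ℕ) : ℕ := (a / 2 ^ (tz a + 1 + min t (tz a))) % 2

/-- The number of the word `α b_1 … b_t` for the advice `1^i 0 J b α`. -/
def pre (a t : ℕ) : ℕ := catN (a / 2 ^ (3 * tz a + 2))
  (2 ^ min t (tz a) + (a / 2 ^ (2 * tz a + 2)) % 2 ^ min t (tz a))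

variable (acc : ℕ → ℕ → ℕ → ℕ → ℕ) (N : ℕ → ℕ) (c : ℕ)

/-- The letter number `v` of the query number `t` on the word of length `n` with the number `z`. -/
def bt (n e a z t v : ℕ) : ℕ :=
  lt01 0 (∑ S ∈ range (N (2 ^ n + z)),
    lt01 0 (acc e (2 ^ n + z) (catN (pre a t) (2 ^ (c * n) + v)) S))

/-- Zero if the queries in the set `J` of the advice are the same for `z` and `z'`. -/
def EQ (n e a z z' : ℕ) : ℕ := ∑ t ∈ range (tz a + 1), jb a t *
  ∑ v ∈ range (2 ^ (c * n)), (bt acc N c n e a z t v + bt acc N c n e a z' t v) % 2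

/-- The queries in the set `J` of the advice. -/
def QV (n e a z : ℕ) : ℕ → Option (Set (List Bool)) := fun t =>
  if t ≤ tz a ∧ jb a t = 1 then
    some {v | v.length = c * n ∧ bt acc N c n e a z t (num v - 2 ^ (c * n)) ≠ 0}
  else none

end

end Pool.Agent.Helper20.NS5
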