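import Pool.Agent.Helper20.NS5.Main
import Pool.Agent.Helper90.NS5.MOM
import Pool.Agent.Helper14.NS5.GOOD
import Pool.Agent.Helper74.NS5.HOL
import Pool.Agent.Helper39.NS5.LSH
import Pool.Agent.Helper91.NS5.EXP
import Pool.Agent.Helper32.NS5.UQL
import Pool.Agent.Helper98.NS5.UQS
import Pool.Agent.Helper5.NS5.NUM
import Pool.Agent.Helper86.NS5.TLK
import Pool.Agent.Helper96.NS5.NUT

/-!
# Reductions to arbitrary sets, and machines with an omniscient partner, for every model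
-/

namespace Pool.Agent.Helper20.NS5

open Pool.Agent.Helper65.LinSpace Pool.Agent.Helper78.Avg Finset
open Pool.Agent.Helper65.Gen3 (pP hs)

section

variable (acc : ℕ → ℕ → ℕ → ℕ → ℕ) (N : ℕ → ℕ) (c k : ℕ)

/-- The values which define the language. -/
noncomputable def hV (n z : ℕ) : ℕ := hs (pP n) (2 * (k + 1)) (hid (EQ acc N c) (k + 1) n) z

theorem good : GOOD_stmt := Pool.Agent.Helper14.NS5.good Pool.Agent.Helper90.NS5.mom

theorem mem_lang (w : List Bool) : w ∈ hL (EQ acc N c) (k + 1) ↔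
    hV acc N c k w.length (num w - 2 ^ w.length) % 2 = 1 := Iff.rfl

theorem lin_lang (hacc : LS (fun z : ℕ × ℕ × ℕ × ℕ => acc z.1 z.2.1 z.2.2.1 z.2.2.2))
    (hN : LS N) : DLINSPACE (hL (EQ acc N c) (k + 1)) :=
  Pool.Agent.Helper39.NS5.lsh _ _ (Pool.Agent.Helper32.NS5.uql acc N c hacc hN)

theorem core_lang : Core acc N c k (hV acc N c k) := fun e n a T =>
  core_bound good Pool.Agent.Helper74.NS5.hol (E := EQ acc N c) (val := QV acc N c)
    (Nat.succ_pos k) (fun n e a z z' _ _ => Pool.Agent.Helper98.NS5.uqs.1 acc N c n e a z z')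
    e n a T

theorem yv_lang (e n : ℕ) (he : e ≤ n) (a : ℕ) (ha : a < 2 ^ ((k + 1) * n + 1)) :
    Yv (QV acc N c n e a) n (k + 1) (fun z => (-1) ^ hV acc N c k n z) ≤
      (thr (k + 1) n e a (Mv (QV acc N c n e a) n) : ℤ) :=
  Pool.Agent.Helper70.NS5.hid_good (E := EQ acc N c) (val := QV acc N c)
    (fun n e a z z' _ _ => Pool.Agent.Helper98.NS5.uqs.1 acc N c n e a z z') good
    (Nat.succ_pos k) n he ha

end

/-- **Adaptive queries to a set which contains few of the queries**, for every model. -/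
theorem sparse_main (acc : ℕ → ℕ → ℕ → ℕ → ℕ) (N : ℕ → ℕ)
    (hacc : LS (fun z : ℕ × ℕ × ℕ × ℕ => acc z.1 z.2.1 z.2.2.1 z.2.2.2)) (hN : LS N) (c k : ℕ) :
    ∃ L : Set (List Bool), DLINSPACE L ∧
      ∀ (Acc Good : List Bool → List Bool → Prop),
        (∃ e n₀ : ℕ, ∀ w y : List Bool, n₀ ≤ w.length →
          (∀ S < N (num w), acc e (num w) (num y) S ≠ 0 → Acc w y) ∧
          (Good w y → ∃ S < N (num w), acc e (num w) (num y) S ≠ 0)) →
        ∃ c' : ℝ, ∀ (n i : ℕ) (α : List Bool) (B : Set (Set (List Bool))),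
          ∀ M, M = L ∨ M = Lᶜ → ∀ S : Set (List Bool),
          (∀ w ∈ S, w.length = n ∧
            (∀ t ≤ i, ∀ v : List Bool, v.length = c * n →
              Acc w (α ++ ans (fun u => Qu Acc (c * n) α w u ∈ B) t ++ v) →
              Good w (α ++ ans (fun u => Qu Acc (c * n) α w u ∈ B) t ++ v)) ∧
            (Qu Acc (c * n) α w (ans (fun u => Qu Acc (c * n) α w u ∈ B) i) ∈ B ↔ w ∈ M)) →
          (S.ncard : ℝ) ≤ 2 ^ n / 2 + c' ^ (i + 1) * ((α.length : ℝ) + 1) * 2 ^ ((n : ℝ) / 2) *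
            (2 ^ ((n : ℝ) + α.length) *
              (({Y ∈ B | ∃ w ∈ S, ∃ t ≤ i,
                Qu Acc (c * n) α w (ans (fun u => Qu Acc (c * n) α w u ∈ B) t) = Y}.ncard : ℝ) +
                  1) ^ ((i + 1) * k)) ^ (1 / (2 * (k : ℝ) + 2)) := by
  refine ⟨hL (EQ acc N c) (k + 1), lin_lang acc N c k hacc hN, fun Acc Good ⟨e, n₀, he⟩ => ?_⟩
  refine ⟨(2 * ((k : ℝ) + 1)) ^ 2 * 2 ^ (e + 4) * 288 * 2 ^ n₀, fun n i α B M hM S hS => ?_⟩
  exact sparse_bound Pool.Agent.Helper91.NS5.exp Pool.Agent.Helper98.NS5.uqs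
    Pool.Agent.Helper5.NS5.num (mem_lang acc N c k) (core_lang acc N c k) he rfl rfl n i α B M hM
    S hS

/-- **A partner who knows everything**, for every model. -/
theorem partner_main (acc : ℕ → ℕ → ℕ → ℕ → ℕ) (N : ℕ → ℕ)
    (hacc : LS (fun z : ℕ × ℕ × ℕ × ℕ => acc z.1 z.2.1 z.2.2.1 z.2.2.2)) (hN : LS N) (c k : ℕ) :
    ∃ L : Set (List Bool), DLINSPACE L ∧
      ∀ (Acc Good : List Bool → List Bool → Prop),
        (∃ e n₀ : ℕ, ∀ w y : List Bool, n₀ ≤ w.length →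
          (∀ S < N (num w), acc e (num w) (num y) S ≠ 0 → Acc w y) ∧
          (Good w y → ∃ S < N (num w), acc e (num w) (num y) S ≠ 0)) →
        ∃ c' : ℝ, ∀ (n i : ℕ) (α : List Bool) (B : Set (List (Set (List Bool)))),
          ∀ M, M = L ∨ M = Lᶜ → ∀ S : Set (List Bool),
          (∀ w ∈ S, w.length = n ∧
            (∀ t ≤ i, ∀ v : List Bool, v.length = c * n →
              Acc w (α ++ (talk (Qu Acc (c * n) α w) B t).1 ++ v) →
              Good w (α ++ (talk (Qu Acc (c * n) α w) B t).1 ++ v)) ∧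
            ((talk (Qu Acc (c * n) α w) B (i + 1)).2 ∈ B ↔ w ∈ M)) →
          (S.ncard : ℝ) ≤ 2 ^ n / 2 + c' * ((α.length : ℝ) + i + 1) * 2 ^ ((n : ℝ) / 2) *
            (2 ^ ((n : ℝ) + α.length + 4 * (i + 1)) *
              ({X | ∃ w ∈ S, (talk (Qu Acc (c * n) α w) B (i + 1)).2 = X}.ncard : ℝ) ^ k) ^
              (1 / (2 * (k : ℝ) + 2)) := by
  refine ⟨hL (EQ acc N c) (k + 1), lin_lang acc N c k hacc hN, fun Acc Good ⟨e, n₀, he⟩ => ?_⟩
  refine ⟨(2 * ((k : ℝ) + 1)) ^ 2 * 2 ^ (e + 4) * 3 * 2 ^ n₀, fun n i α B M hM S hS => ?_⟩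
  exact partner_bound Pool.Agent.Helper74.NS5.hol Pool.Agent.Helper98.NS5.uqs
    Pool.Agent.Helper86.NS5.tlk Pool.Agent.Helper96.NS5.nut (mem_lang acc N c k)
    (yv_lang acc N c k) he rfl rfl n i α B M hM S hS

end Pool.Agent.Helper20.NS5
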