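import Pool.Agent.Helper20.NS5.Defs

/-!
# Reductions to arbitrary sets: the statements of the parts

Every statement comes with its proof in words. This is a variant of `Pool.Agent.Helper65.Gen3`
(proofs there: `Helper65/Gen3/Mom.lean`, `Helper86/Gen3/GOOD.lean`, `Helper59/Gen3/LSH.lean`,
`Helper30/Gen3/HARD.lean`, `Helper8/Gen3/ALT.lean`), from which most parts can be adapted.
-/

namespace Pool.Agent.Helper20.NS5

open Pool.Agent.Helper65.LinSpace Pool.Agent.Helper78.Avg Finset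
open Pool.Agent.Helper65.Gen3 (pP hs IND_stmt)

/-- MOM (may assume `IND_stmt`, which is proved in `Helper19/Gen3/IND.lean`). The moment of order
`2 k` of a polynomial on a set `T`. This is the proof `mom` in `Pool/Agent/Helper65/Gen3/Mom.lean`
with `T` for `range (2 ^ n)` and without the signs `f`: expand the power (`sum_pow'`) as the sum
over `τ : Fin (2 k) → T`, use `prod_odds`, IND (`odds τ ⊆ T ⊆ range p`), `two_card_le`, `mom_aux`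
(with `N = |T| ≤ p`), and `card_values`, `sum_pow_le` with `T` for `range N` (their proofs do not
change). If `T` is empty the left side is `0`. -/
def MOM_stmt : Prop := ∀ (k n p : ℕ), 0 < k → p.Prime → 2 < p → 2 ^ n < p →
    ∀ T : Finset ℕ, T ⊆ range (2 ^ n) →
    ∑ s ∈ range (p ^ (2 * k)), (∑ z ∈ T, (-1 : ℤ) ^ hs p (2 * k) s z) ^ (2 * k) ≤
      (2 * k) ^ (2 * k + 1) * p ^ (2 * k) * (T.card : ℤ) ^ k

/-- GOOD (may assume MOM). As `good` in `Helper86/Gen3/GOOD.lean`. For fixed `e`, `a` write `F` for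
`F e a`, `M = Mv F n`, `c z = cs F n z`, `l z = Nat.log 2 (c z)`. By MOM for the class of `z`,
`∑ s, Yv F n k (…) ≤ ∑ z, 2 ^ ((k + 1) (n - l z)) (2 k) ^ (2 k + 1) p ^ (2 k) (c z) ^ k`
(exchange the sums). Since `1 ≤ c z ≤ 2 ^ n` (for `z < 2 ^ n`), `l z ≤ n` and `c z < 2 ^ (l z + 1)`, one has
`(c z) ^ k 2 ^ ((k + 1) (n - l z)) ≤ 2 ^ (k (l z + 1) + (k + 1) (n - l z)) = 2 ^ (k (n + 1)) 2 ^ (n - l z)`.
So `∑ s, Yv ≤ (2 k) ^ (2 k + 1) p ^ (2 k) 2 ^ (k (n + 1)) M`. All `Yv` are nonnegative (even powers) and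
`M > 0`; by Markov's inequality at most `p ^ (2 k) / (16 * 4 ^ e * (m + 1) ^ 2 * 2 ^ m)` numbers `s`
are bad for `e`, `a` (`m = log₂ a`), and the sum over `e` and `a` is smaller than `p ^ (2 k)`
(`sum_adv`, `sum_inv_sq`, `sum_four`; literally the end of `good` there). -/
def GOOD_stmt : Prop := ∀ (β : Type) (k n p : ℕ), 0 < k → p.Prime → 2 < p → 2 ^ n < p →
    ∀ F : ℕ → ℕ → ℕ → β, ∃ s < p ^ (2 * k), ∀ e < n + 1, ∀ a < 2 ^ (k * n + 1),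
      Yv (F e a) n k (fun z => (-1) ^ hs p (2 * k) s z) ≤ (thr k n e a (Mv (F e a) n) : ℤ)

/-- HOL. Let `I` be the image of `range (2 ^ n)` under `F`, and for `b ∈ I` let `C b` be the class
with the value `b` (with `c b ≥ 1` elements) and `d b` the sum of `g` over `C b`. For every function
`G`, `∑ z ∈ range (2 ^ n), G (F z) = ∑ b ∈ I, c b * G b` (`Finset.sum_comp`). Second claim:
`Mv F n = ∑ b ∈ I, c b * 2 ^ (n - log₂ (c b)) ≤ ∑ b ∈ I, 2 ^ (log₂ (c b) + 1 + n - log₂ (c b))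
= |I| 2 ^ (n + 1)` (`log₂ (c b) ≤ n`). First claim, in the real numbers: let `I' = I ∩ T`,
`|I'| = nv F n T`. `sv F n T g = ∑ b ∈ I', d b` (`Finset.sum_fiberwise_of_maps_to` or
`sum_comp`-like). By the Cauchy-Schwarz inequality
(`Finset.sum_sq_le_sum_mul_sum_of_sq_eq_mul` with `d b ^ 2 = c b * (d b ^ 2 / c b)`)
`(∑ b ∈ I', d b) ^ 2 ≤ (∑ b ∈ I', c b) (∑ b ∈ I', d b ^ 2 / c b) ≤ 2 ^ n ∑ b ∈ I', d b ^ 2 / c b`.
Take the power `k`; by the inequality of power means (`inner_le_nnorm_mul_nnorm` or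
`pow_sum_div_card_le_sum_pow`: `(∑ b ∈ I', x b) ^ k ≤ |I'| ^ (k - 1) ∑ b ∈ I', x b ^ k` for `x ≥ 0`)
`(sv) ^ (2 k) ≤ 2 ^ (n k) |I'| ^ (k - 1) ∑ b ∈ I, d b ^ (2 k) / c b ^ k`. Finally
`Yv F n k g = ∑ b ∈ I, c b d b ^ (2 k) (2 ^ (n - log₂ (c b))) ^ (k + 1)
≥ ∑ b ∈ I, c b d b ^ (2 k) (2 ^ n / c b) ^ (k + 1) = 2 ^ (n (k + 1)) ∑ b ∈ I, d b ^ (2 k) / c b ^ k`
since `2 ^ (n - log₂ (c b)) c b ≥ 2 ^ n`. -/
def HOL_stmt : Prop := ∀ (β : Type) (k n : ℕ) (F : ℕ → β) (T : Set β) (g : ℕ → ℤ), 0 < k →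
    (2 : ℤ) ^ n * sv F n T g ^ (2 * k) ≤ (nv F n T : ℤ) ^ (k - 1) * Yv F n k g ∧
    Mv F n ≤ 2 ^ (n + 1) * nv F n Set.univ

/-- LSH. The language is in linear space. As `Helper59/Gen3/LSH.lean`, with `n = Nat.log 2 x`:
the functions are `LS` in the form `fun z => szN E (Nat.log 2 (x z)) (e z) (a z) (z' z)` and so on, for
`x e a s z'` in `LS` (`ls_hs`, `ls_pP`, `ls_pow_log` there can be used as they are). `szN`, `odN` by
`LS.sum_le` with bound `1` (`ifz … ≤ 1`, `… % 2 ≤ 1`; `E` by `LS.comp` from the hypothesis), `wN` by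
`LS.pow_of_le` (`2 ^ (n - …) ≤ 2 ^ n ≤ x + 1`), `YN` by `LS.sum_le` with the bound
`(2 ^ n) ^ (2 k) (2 ^ n) ^ (k + 1)` (`szN`, `odN ≤ 2 ^ n` and `(szN - 2 odN) + (2 odN - szN) ≤ 2 ^ n`, since
`odN ≤ szN ≤ 2 ^ n`), `LS.pow_const`, `MN` by `LS.sum_le`, `thrN` as `ls_wtN`, `vio`, `badN`, `hid` as there. In
`LS.dlinspace` use `F x = hs (pP (log x)) (2 k) (hid E k (log x)) (x - 2 ^ log x) % 2`. -/
def LSH_stmt : Prop := ∀ (E : ℕ → ℕ → ℕ → ℕ → ℕ → ℕ) (k : ℕ),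
    LS (fun z : ℕ × ℕ × ℕ × ℕ × ℕ => E (Nat.log 2 z.1) z.2.1 z.2.2.1 z.2.2.2.1 z.2.2.2.2) →
    DLINSPACE (hL E k)

/-- CORE (may assume GOOD, HOL, LSH). Take `L = hL E k`, `h n z = hs (pP n) (2 k) (hid E k n) z`. As
`Helper30/Gen3/HARD.lean`: for `F = val n e a` and `g z = (-1) ^ hs (pP n) (2 k) s z` one has
`szN E n e a z = cs F n z` for `z < 2 ^ n` (hypothesis on `E`; `sum` of `ifz` is the cardinality of a
filter), `szN - 2 odN = dev F n g z` in the integers (`(-1) ^ h = 1 - 2 (h % 2)`,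
`Pool.Agent.Helper78.Avg.neg_one_pow_eq`), so `(YN E k n e a s : ℤ) = Yv F n k g` (`pow_sub` there),
`MN E n e a = Mv F n`, and for `e ≤ n`, `log₂ a ≤ k n`: `thrN E k n e a = thr k n e a (Mv F n)`. By GOOD
there is an `s` with `badN = 0`; `hid` is the first one (`hid_spec` there). So
`Yv F n k g ≤ thr k n e a (Mv F n)` for `s = hid E k n` and all `e ≤ n`, `a < 2 ^ (k n + 1)`; for the
advice word `a` this is `num a < 2 ^ (|a| + 1)`, `log₂ (num a) = |a|` (`num_lt`, `log_num`).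
Let `S = sv F n T g`, `N = nv F n T`, `N' = nv F n univ ≥ 1`, `m = |a|`. If `e ≤ n` and `m ≤ k n`: by HOL
`2 ^ n S ^ (2 k) ≤ N ^ (k - 1) (2 k) ^ (2 k + 1) 2 ^ (n + 1) N' (m + 1) ^ 2 2 ^ (k (n + 1) + m + 2 e + 4)`; divide
by `2 ^ n`; `2 ^ (k + 2 e + 5) ≤ 2 ^ (2 k (e + 4))`. If `e > n` or `m > k n`: `|S| ≤ 2 ^ n`, so
`S ^ (2 k) ≤ 2 ^ (2 k n)`, and the right side is at least this if `N ≥ 1` or `k = 1`
(`2 ^ (2 k (e + 4)) ≥ 2 ^ (2 k n)` or `2 ^ (k n + m) ≥ 2 ^ (2 k n)`; `N ^ (k - 1) ≥ 1`); if `N = 0` then `S = 0`. -/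
def CORE_stmt : Prop := ∀ (β : Type) (E : ℕ → ℕ → ℕ → ℕ → ℕ → ℕ) (val : ℕ → ℕ → ℕ → ℕ → β)
    (k : ℕ), 0 < k →
    LS (fun z : ℕ × ℕ × ℕ × ℕ × ℕ => E (Nat.log 2 z.1) z.2.1 z.2.2.1 z.2.2.2.1 z.2.2.2.2) →
    (∀ n e a z z', z < 2 ^ n → z' < 2 ^ n → (E n e a z z' = 0 ↔ val n e a z = val n e a z')) →
    ∃ (L : Set (List Bool)) (h : ℕ → ℕ → ℕ), DLINSPACE L ∧
      (∀ w, w ∈ L ↔ h w.length (num w - 2 ^ w.length) % 2 = 1) ∧
      ∀ (e n : ℕ) (a : List Bool) (T : Set β),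
        sv (val n e (num a)) n T (fun z => (-1) ^ h n z) ^ (2 * k) ≤
          ((2 * k) ^ (2 * k + 1) * 2 ^ (2 * k * (e + 4)) * (a.length + 1) ^ 2 *
            2 ^ (k * n + a.length) * nv (val n e (num a)) n Set.univ *
            nv (val n e (num a)) n T ^ (k - 1) : ℕ)

open Classical in
/-- EXP. The indicator of the last answer. For fixed `z` write `G` for `G z`. Let
`Φ u 0 = 1` if `G u`, otherwise `0`, and
`Φ u (i + 1) = [G u] Φ (u ++ [true]) i + (1 - [G u]) Φ (u ++ [false]) i`. Then `Φ [] i = [G (ans G i)]`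
(more generally `Φ (ans G j) i = [G (ans G (i + j))]`, induction on `i` for all `j`). Claim: for all
`u` with `|u| = j`, `j + i = i₀`, and all `J ⊆ range j`,
`|∑ z ∈ Z, [∀ t ∈ J, G z (u.take t)] s z Φ_z u i| ≤ 3 ^ i X`. Induction on `i`: for `i = 0` this is the
hypothesis with `b = u` and `J`. For `i + 1`: `Φ u (i + 1) = [G u] Φ (u ++ [true]) i + Φ (u ++ [false]) i
- [G u] Φ (u ++ [false]) i`, so the sum is a combination of three sums for `u ++ [true]`, `J ∪ {j}`,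
`u ++ [false]`, `J`, and `u ++ [false]`, `J ∪ {j}` (`(u ++ [x]).take t = u.take t` for `t ≤ j`, and
`= u` for `t = j`). -/
def EXP_stmt : Prop := ∀ (Z : Finset ℕ) (s : ℕ → ℝ) (G : ℕ → List Bool → Prop) (X : ℝ) (i : ℕ),
    (∀ b : List Bool, b.length = i → ∀ J : Finset ℕ, J ⊆ range i →
      |∑ z ∈ Z.filter (fun z => G z b ∧ ∀ t ∈ J, G z (b.take t)), s z| ≤ X) →
    |∑ z ∈ Z.filter (fun z => G z (ans (G z) i)), s z| ≤ 3 ^ i * X

/-- UQL. The universal device is in linear space. `tz a ≤ log₂ a + 1` and, if `j = tz a`, then `2 ^ j`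
divides `a + 1` or `j ≤ log₂ a`; anyway `2 ^ tz a ≤ 2 (a + 1)` (`2 ^ (log₂ a) ≤ a` for `a > 0`), so all powers
of `2` are polynomially bounded: `2 ^ (min i (log₂ a) + 1) ≤ 2 (a + 1)`,
`2 ^ (tz a + 1 + min t (tz a)) ≤ 2 (2 (a + 1)) ^ 2`, `2 ^ (3 tz a + 2) ≤ 4 (2 (a + 1)) ^ 3`, and so on
(`LS.pow_of_le`, `LS.pow_const`); `2 ^ (c * log₂ x) ≤ (x + 1) ^ c`. `catN`: `LS.catN`. The sums by
`LS.sum_le`: the terms of the inner sums are at most `1`, so `∑ v … ≤ 2 ^ (c log₂ x)`. `N (2 ^ n + z)`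
and `acc e (2 ^ n + z) …` by `LS.comp`. (Compare `LS.UA` in `Pool/Agent/Helper78/Gen2/Main.lean`.) -/
def UQL_stmt : Prop := ∀ (acc : ℕ → ℕ → ℕ → ℕ → ℕ) (N : ℕ → ℕ) (c : ℕ),
    LS (fun z : ℕ × ℕ × ℕ × ℕ => acc z.1 z.2.1 z.2.2.1 z.2.2.2) → LS N →
    LS (fun z : ℕ × ℕ × ℕ × ℕ × ℕ =>
      EQ acc N c (Nat.log 2 z.1) z.2.1 z.2.2.1 z.2.2.2.1 z.2.2.2.2)

/-- UQS. First claim: all terms are nonnegative, `jb ≤ 1`, so `EQ = 0` if and only if for all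
`t ≤ tz a` with `jb a t = 1` and all `v < 2 ^ (c n)` the numbers `bt … z t v`, `bt … z' t v` (which are
`0` or `1`) are equal; the numbers `v < 2 ^ (c n)` are the numbers `num v - 2 ^ (c n)` of the words of
length `c n` (`exists_num`, `log_num`, `pow_le_num`, `num_lt`). Second claim: take
`a = 1^i 0 J_0 … J_i b α`, `J_t = [t ∈ J]`. `num` is little endian (`num (x :: w) = x + 2 num w`), so for
words `x`, `y`: `num (x ++ y) = (num x - 2 ^ |x|) + 2 ^ |x| num y` (`num_append`), hence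
`num (x ++ y) / 2 ^ |x| = num y` and `num (x ++ y) % 2 ^ |x| = num x - 2 ^ |x|`. `num a + 1 = 2 ^ i (1 + 2 y)` with
`y = num (J b α)`, so `(num a + 1) % 2 ^ (j + 1) = 0` if and only if `j < i` (for `j ≤ log₂ (num a) = |a|`),
and `tz (num a) = i` (`i < |a| + 1`). `jb`: `num a / 2 ^ (i + 1 + t) % 2` is the letter `J_t`. `pre`: `num a / 2 ^ (3 i
+ 2) = num α`, `num a / 2 ^ (2 i + 2) = num (b α)`, modulo `2 ^ t` this is `num (b.take t) - 2 ^ t`. -/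
def UQS_stmt : Prop :=
    (∀ (acc : ℕ → ℕ → ℕ → ℕ → ℕ) (N : ℕ → ℕ) (c n e a z z' : ℕ),
      EQ acc N c n e a z z' = 0 ↔ QV acc N c n e a z = QV acc N c n e a z') ∧
    ∀ (i : ℕ) (b α : List Bool) (J : Finset ℕ), b.length = i →
      ∃ a : List Bool, a.length = α.length + 3 * i + 2 ∧ tz (num a) = i ∧
        (∀ t ≤ i, jb (num a) t = 1 ↔ t ∈ J) ∧ ∀ t ≤ i, pre (num a) t = num (α ++ b.take t)

/-- NUM. With `K = k + 1`, `m' = m + 3 i + 2` let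
`X = (2 K) ^ 2 2 ^ (e + 4) (m' + 1) 2 ^ (3 i + 2) 2 ^ (n / 2) (2 ^ (n + m) (N + 1) ^ ((i + 1) k)) ^ (1 / (2 K))`.
Then `X ^ (2 K) = (2 K) ^ (4 K) 2 ^ (2 K (e + 4)) (m' + 1) ^ (2 K) 2 ^ (2 K (3 i + 2)) 2 ^ (K n) 2 ^ (n + m)
(N + 1) ^ ((i + 1) k)` is at least the right side of the hypothesis (`2 K + 1 ≤ 4 K`, `2 ≤ 2 K`,
`3 i + 2 ≤ 2 K (3 i + 2)`, `N' ≤ 2 ^ n`, `NJ ^ k ≤ (N + 1) ^ ((i + 1) k)`), so `|S| ≤ X` (even power,
`le_of_pow_le_pow_left₀`; compare `abs_dis_le` in `Helper30/Gen3/HARD.lean`). And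
`m' + 1 ≤ (m + 1) (3 i + 3) ≤ (m + 1) 3 2 ^ (i + 1)`, `3 2 ^ (i + 1) 2 ^ (3 i + 2) ≤ 48 ^ (i + 1)`. -/
def NUM_stmt : Prop := ∀ (k e n i m N' NJ N : ℕ) (S : ℤ),
    S ^ (2 * (k + 1)) ≤ ((2 * (k + 1)) ^ (2 * (k + 1) + 1) * 2 ^ (2 * (k + 1) * (e + 4)) *
      ((m + 3 * i + 2) + 1) ^ 2 * 2 ^ ((k + 1) * n + (m + 3 * i + 2)) * N' * NJ ^ (k + 1 - 1) : ℕ) →
    N' ≤ 2 ^ n → NJ ≤ (N + 1) ^ (i + 1) →
    |(S : ℝ)| ≤ (2 * ((k : ℝ) + 1)) ^ 2 * 2 ^ (e + 4) * 48 ^ (i + 1) * ((m : ℝ) + 1) *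
      2 ^ ((n : ℝ) / 2) *
      (2 ^ ((n : ℝ) + m) * ((N : ℝ) + 1) ^ ((i + 1) * k)) ^ (1 / (2 * (k : ℝ) + 2))

/-- The query after the answers `u`. -/
def Qu (Acc : List Bool → List Bool → Prop) (m : ℕ) (α w u : List Bool) : Set (List Bool) :=
  {v | v.length = m ∧ Acc w (α ++ u ++ v)}

/-- RED (may assume everything): the theorem. -/
def RED_stmt : Prop := ∀ (acc : ℕ → ℕ → ℕ → ℕ → ℕ) (N : ℕ → ℕ),
    LS (fun z : ℕ × ℕ × ℕ × ℕ => acc z.1 z.2.1 z.2.2.1 z.2.2.2) → LS N → ∀ c k : ℕ,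
    ∃ L : Set (List Bool), DLINSPACE L ∧
      ∀ (Acc Good : List Bool → List Bool → Prop),
        (∃ e n₀ : ℕ, ∀ w y : List Bool, n₀ ≤ w.length →
          (∀ S < N (num w), acc e (num w) (num y) S ≠ 0 → Acc w y) ∧
          (Good w y → ∃ S < N (num w), acc e (num w) (num y) S ≠ 0)) →
        ∃ c' : ℝ, ∀ (n i : ℕ) (α : List Bool) (B : Set (Set (List Bool))),
          (∀ w u v : List Bool, w.length = n → u.length ≤ i → v.length = c * n →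
            Acc w (α ++ u ++ v) → Good w (α ++ u ++ v)) →
          ∀ M, M = L ∨ M = Lᶜ →
          ({w : List Bool | w.length = n ∧
            (Qu Acc (c * n) α w (ans (fun u => Qu Acc (c * n) α w u ∈ B) i) ∈ B ↔
              w ∈ M)}.ncard : ℝ) ≤
          2 ^ n / 2 + c' ^ (i + 1) * ((α.length : ℝ) + 1) * 2 ^ ((n : ℝ) / 2) *
            (2 ^ ((n : ℝ) + α.length) *
              (({Y ∈ B | ∃ w u : List Bool, w.length = n ∧ u.length ≤ i ∧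
                Qu Acc (c * n) α w u = Y}.ncard : ℝ) + 1) ^ ((i + 1) * k)) ^
              (1 / (2 * (k : ℝ) + 2))

end Pool.Agent.Helper20.NS5
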