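import Pool.Agent.Helper20.NS5.Goals

/-!
# A machine which talks to an omniscient partner: the statements of the parts

Every statement comes with its proof in words.
-/

namespace Pool.Agent.Helper20.NS5

open Pool.Agent.Helper65.LinSpace Pool.Agent.Helper78.Avg Finset
open Pool.Agent.Helper65.Gen3 (pP hs)

open Classical in
/-- The first `i` answers and the first `i` queries, if `G u` is the query after the answers `u`, and
the answer to a query is yes if and only if the sequence of all queries so far is in `B`. -/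
noncomputable def talk {X : Type} (G : List Bool → X) (B : Set (List X)) : ℕ → List Bool × List X
  | 0 => ([], [])
  | i + 1 => ((talk G B i).1 ++ [decide ((talk G B i).2 ++ [G (talk G B i).1] ∈ B)],
      (talk G B i).2 ++ [G (talk G B i).1])

/-- TLK. Write `u t = (talk G B t).1`, `x t = (talk G B t).2` (lists of length `t`), and `u'`, `x'` for
`G'`. Then `u t = (u i).take t`, `x t = (x i).take t` for `t ≤ i` (induction on `i`). From left to right: by
induction on `t ≤ i`: `x t = x' t` (both are `take t` of the same list) and `u t = u' t` (the last answer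
is `decide (x t ∈ B)`); comparing the elements number `t` of `x (i + 1) = x' (i + 1)` gives
`G (u t) = G' (u' t) = G' (u t)`. From right to left: by induction on `t ≤ i + 1`, `x t = x' t` and
`u t = u' t`: `x (t + 1) = x t ++ [G (u t)]`, and `G (u t) = G' (u t) = G' (u' t)`. -/
def TLK_stmt : Prop := ∀ (X : Type) (G G' : List Bool → X) (B : Set (List X)) (i : ℕ),
    (talk G B i).1.length = i ∧
    ((talk G B (i + 1)).2 = (talk G' B (i + 1)).2 ↔
      ∀ t ≤ i, G ((talk G B i).1.take t) = G' ((talk G B i).1.take t))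

/-- NUT. With `K = k + 1`, `m' = m + 3 i + 2` let
`X = (2 K) ^ 2 2 ^ (e + 4) (m' + 1) 2 ^ (n / 2) (2 ^ (n + m + 4 (i + 1)) T ^ k) ^ (1 / (2 K))`. Then
`X ^ (2 K) = (2 K) ^ (4 K) 2 ^ (2 K (e + 4)) (m' + 1) ^ (2 K) 2 ^ (K n) 2 ^ (n + m + 4 (i + 1)) T ^ k`.
First case: dividing the hypothesis by `2 ^ n` gives
`S ^ (2 K) ≤ T ^ k 2 ^ i (2 K) ^ (2 K + 1) 2 ^ n (m' + 1) ^ 2 2 ^ (K (n + 1) + m' + 2 e + 4) ≤ X ^ (2 K)`,
because `2 K + 1 ≤ 4 K`, `2 ≤ 2 K`, `K + 2 e + 4 ≤ 2 K (e + 4)` and `i + n + m' + K n + (K + 2 e + 4) ≤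
K n + (n + m + 4 (i + 1)) + 2 K (e + 4)`. So `|S| ≤ X` (compare NUM), and `m' + 1 ≤ 3 (m + i + 1)`.
Second case: `|S| ≤ 2 ^ n`. If `n < e` then `2 ^ n ≤ 2 ^ (e + 4)` and all other factors are `≥ 1` (`1 ≤ T`). If
`K n < m + 3 i + 2` then `2 K n ≤ K n + (n + m + 4 (i + 1))`, so
`2 ^ n ≤ 2 ^ (n / 2) (2 ^ (n + m + 4 (i + 1))) ^ (1 / (2 K))`. -/
def NUT_stmt : Prop := ∀ (k e n i m T : ℕ) (S : ℤ), 1 ≤ T →
    ((2 : ℤ) ^ n * S ^ (2 * (k + 1)) ≤ (T ^ k * (2 ^ i * ((2 * (k + 1)) ^ (2 * (k + 1) + 1) *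
        2 ^ (2 * n) * ((m + 3 * i + 2) + 1) ^ 2 *
        2 ^ ((k + 1) * (n + 1) + (m + 3 * i + 2) + 2 * e + 4))) : ℕ)) ∨
      (|S| ≤ 2 ^ n ∧ (n < e ∨ (k + 1) * n < m + 3 * i + 2)) →
    |(S : ℝ)| ≤ (2 * ((k : ℝ) + 1)) ^ 2 * 2 ^ (e + 4) * 3 * ((m : ℝ) + i + 1) *
      2 ^ ((n : ℝ) / 2) *
      (2 ^ ((n : ℝ) + m + 4 * (i + 1)) * (T : ℝ) ^ k) ^ (1 / (2 * (k : ℝ) + 2))

end Pool.Agent.Helper20.NS5
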