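import Mathlib

/-!
# Two estimates for large `n`

Every statement comes with its proof in words.
-/

namespace Pool.Agent.Helper20.NS5

/-- CO1. Let `E = log₂ (|c'| + 2) ≥ 1`. Choose `δ > 0` with `δ ≤ 1` and
`δ (E + 2 + (a + 1) / 2) ≤ ε / (2 k + 2)`. For `n ≥ 2`, `L = log₂ n ≥ 1`, so `q ≤ q L ≤ δ n` and
`|c' ^ q| ≤ 2 ^ (E q) ≤ 2 ^ (E δ n)`. For large `n`, `m + 1 ≤ k n + 1 ≤ 2 ^ (δ n)`.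
`N + 1 ≤ n ^ a + 1 ≤ n ^ (a + 1)` (`n ≥ 2`), so `((N + 1) ^ (q k)) ^ (1 / (2 k + 2)) ≤
n ^ ((a + 1) q k / (2 k + 2)) ≤ n ^ ((a + 1) q / 2) = 2 ^ ((a + 1) q L / 2) ≤ 2 ^ ((a + 1) δ n / 2)`.
`(2 ^ (n + m)) ^ (1 / (2 k + 2)) ≤ 2 ^ ((n + (k - ε) n) / (2 k + 2)) = 2 ^ (n / 2 - ε n / (2 k + 2))`. The
product is at most `2` to the power
`E δ n + δ n + n / 2 + n / 2 - ε n / (2 k + 2) + (a + 1) δ n / 2 ≤ (1 - δ) n`. -/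
def CO1_stmt : Prop := ∀ (k a : ℕ) (c' ε : ℝ), 0 < ε → ∃ δ : ℝ, 0 < δ ∧ ∃ n₀ : ℕ, ∀ n ≥ n₀,
    ∀ q m N : ℕ, (q : ℝ) * Real.logb 2 n ≤ δ * n → (m : ℝ) ≤ (k - ε) * n →
    (N : ℝ) ≤ (n : ℝ) ^ a →
    c' ^ q * ((m : ℝ) + 1) * 2 ^ ((n : ℝ) / 2) *
      (2 ^ ((n : ℝ) + m) * ((N : ℝ) + 1) ^ (q * k)) ^ (1 / (2 * (k : ℝ) + 2)) ≤
        2 ^ ((1 - δ) * (n : ℝ))

/-- CO2. Let `δ = ε k / (2 k + 2) / 2` (positive, as `k > 0`). `m + i + 1 ≤ m + 4 (i + 1) ≤ ε k n`, so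
for large `n`, `c' (m + i + 1) ≤ |c'| ε k n ≤ 2 ^ (δ n)`. And
`(2 ^ (n + m + 4 (i + 1)) T ^ k) ^ (1 / (2 k + 2)) ≤ 2 ^ ((n + ε k n + k (1 - 2 ε) n) / (2 k + 2))
= 2 ^ (n / 2 - ε k n / (2 k + 2))`. The product is at most `2 ^ (δ n + n - 2 δ n)`. -/
def CO2_stmt : Prop := ∀ (k : ℕ) (c' ε : ℝ), 0 < k → 0 < ε → ∃ δ : ℝ, 0 < δ ∧ ∃ n₀ : ℕ,
    ∀ n ≥ n₀, ∀ i m T : ℕ, (m : ℝ) + 4 * (i + 1) ≤ ε * k * n →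
    (T : ℝ) ≤ 2 ^ ((1 - 2 * ε) * (n : ℝ)) →
    c' * ((m : ℝ) + i + 1) * 2 ^ ((n : ℝ) / 2) *
      (2 ^ ((n : ℝ) + m + 4 * (i + 1)) * (T : ℝ) ^ k) ^ (1 / (2 * (k : ℝ) + 2)) ≤
        2 ^ ((1 - δ) * (n : ℝ))

end Pool.Agent.Helper20.NS5
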