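import Pool.Agent.Helper20.NS5.Goals2
import Pool.Agent.Helper70.NS5.CORE

/-!
# Reductions to arbitrary sets, and machines with an omniscient partner: the general theorem
-/

namespace Pool.Agent.Helper20.NS5

open Pool.Agent.Helper65.LinSpace Pool.Agent.Helper78.Avg Finset
open Pool.Agent.Helper65.Gen3 (pP hs IND_stmt)

/-! ### Words and numbers -/

/-- The word of length `n` with the number `2 ^ n + z`. -/
theorem exists_word {n z : ℕ} (hz : z < 2 ^ n) :
    ∃ w : List Bool, w.length = n ∧ num w = 2 ^ n + z := by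
  have hpos : 0 < 2 ^ n := by positivity
  obtain ⟨w, hw⟩ := Pool.Agent.Helper78.Avg.exists_num (show 0 < 2 ^ n + z by omega)
  refine ⟨w, ?_, hw⟩
  have h1 := Pool.Agent.Helper78.Avg.log_num w
  rw [← h1, hw]
  refine (Nat.log_eq_iff (Or.inr ⟨by norm_num, by omega⟩)).2 ⟨by omega, ?_⟩
  rw [pow_succ]
  omega

/-- The word of length `n` with the number `2 ^ n + z`. -/
noncomputable def wd (n z : ℕ) : List Bool :=
  if h : z < 2 ^ n then (exists_word h).choose else []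

theorem wd_spec {n z : ℕ} (hz : z < 2 ^ n) : (wd n z).length = n ∧ num (wd n z) = 2 ^ n + z := by
  unfold wd
  rw [dif_pos hz]
  exact (exists_word hz).choose_spec

theorem wd_num {n : ℕ} {w : List Bool} (hw : w.length = n) : wd n (num w - 2 ^ n) = w := by
  have h1 := num_lt w
  have h2 := pow_le_num w
  rw [hw] at h1 h2
  rw [pow_succ] at h1
  have h3 : num w - 2 ^ n < 2 ^ n := by omega
  apply Pool.Agent.Helper78.Avg.num_injective
  rw [(wd_spec h3).2]
  omega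

/-- Counting words. -/
theorem ncard_wd (n : ℕ) (P : List Bool → Prop) [DecidablePred fun z => P (wd n z)] :
    {w : List Bool | w.length = n ∧ P w}.ncard =
      ((range (2 ^ n)).filter fun z => P (wd n z)).card := by
  classical
  have h : {w : List Bool | w.length = n ∧ P w} =
      {w : List Bool | w.length = n ∧ (fun y => P (wd n (y - 2 ^ n))) (num w)} := by
    ext w
    simp only [Set.mem_ofPred_eq]
    refine and_congr_right fun hw => ?_
    rw [wd_num hw]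
  rw [h, ncard_words n fun y => P (wd n (y - 2 ^ n))]
  congr 1
  refine filter_congr fun z _ => ?_
  rw [Nat.add_sub_cancel_left]

/-! ### Correct answers and correlations -/

open Classical in
/-- The number of the words on which the predicate `G` agrees with the language. -/
theorem count_L {n : ℕ} (L : Set (List Bool)) (h : ℕ → ℕ)
    (hL : ∀ z < 2 ^ n, wd n z ∈ L ↔ h z % 2 = 1) (G : List Bool → Prop) :
    ({w : List Bool | w.length = n ∧ (G w ↔ w ∈ L)}.ncard : ℝ) =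
      2 ^ n / 2 - ∑ z ∈ (range (2 ^ n)).filter (fun z => G (wd n z)), (-1 : ℝ) ^ h z +
        (∑ z ∈ range (2 ^ n), (-1 : ℝ) ^ h z) / 2 := by
  rw [ncard_wd n fun w => (G w ↔ w ∈ L), card_filter, sum_filter]
  push_cast
  have h1 : (2 : ℝ) ^ n / 2 = ∑ z ∈ range (2 ^ n), (1 : ℝ) / 2 := by
    rw [sum_const, card_range, nsmul_eq_mul]
    push_cast
    ring
  rw [h1, sum_div, ← sum_sub_distrib, ← sum_add_distrib]
  refine sum_congr rfl fun z hz => ?_
  have h2 := hL z (mem_range.1 hz)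
  rcases Nat.mod_two_eq_zero_or_one (h z) with h3 | h3
  · have h4 : wd n z ∉ L := fun h5 => by
      rw [h2] at h5
      omega
    have h5 : (-1 : ℝ) ^ h z = 1 := Even.neg_one_pow (Nat.even_iff.2 h3)
    rw [h5]
    by_cases hG : G (wd n z) <;> simp [hG, h4] <;> norm_num
  · have h4 : wd n z ∈ L := h2.2 h3
    have h5 : (-1 : ℝ) ^ h z = -1 := Odd.neg_one_pow (Nat.odd_iff.2 h3)
    rw [h5]
    by_cases hG : G (wd n z) <;> simp [hG, h4] <;> norm_num

theorem count_compl {n : ℕ} (L : Set (List Bool)) (G : List Bool → Prop) :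
    ({w : List Bool | w.length = n ∧ (G w ↔ w ∈ Lᶜ)}.ncard : ℝ) =
      2 ^ n - {w : List Bool | w.length = n ∧ (G w ↔ w ∈ L)}.ncard := by
  classical
  rw [ncard_wd n fun w => (G w ↔ w ∈ Lᶜ), ncard_wd n fun w => (G w ↔ w ∈ L)]
  have h := card_filter_add_card_filter_not (s := range (2 ^ n)) (fun z => (G (wd n z) ↔ wd n z ∈ L))
  rw [card_range] at h
  have h2 : ((range (2 ^ n)).filter fun z => (G (wd n z) ↔ wd n z ∈ Lᶜ)) =
      (range (2 ^ n)).filter fun z => ¬ (G (wd n z) ↔ wd n z ∈ L) := by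
    refine filter_congr fun z _ => ?_
    rw [Set.mem_compl_iff]
    tauto
  rw [h2, eq_sub_iff_add_eq]
  norm_cast
  omega

/-! ### The universal device -/

section

variable {acc : ℕ → ℕ → ℕ → ℕ → ℕ} {N : ℕ → ℕ} {c e n₀ : ℕ}
  {Acc Good : List Bool → List Bool → Prop}

/-- The meaning of the letters of the queries. -/
theorem bt_iff {n : ℕ} {α b : List Bool} {a t z : ℕ} (hz : z < 2 ^ n)
    (hpre : pre a t = num (α ++ b.take t))
    (he : ∀ w y : List Bool, n₀ ≤ w.length →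
      (∀ S < N (num w), acc e (num w) (num y) S ≠ 0 → Acc w y) ∧
      (Good w y → ∃ S < N (num w), acc e (num w) (num y) S ≠ 0)) (hn : n₀ ≤ n)
    (hG : ∀ w u v : List Bool, w.length = n → u.length ≤ b.length → v.length = c * n →
      Acc w (α ++ u ++ v) → Good w (α ++ u ++ v))
    {v : List Bool} (hv : v.length = c * n) :
    bt acc N c n e a z t (num v - 2 ^ (c * n)) ≠ 0 ↔ Acc (wd n z) (α ++ b.take t ++ v) := by
  obtain ⟨h1, h2⟩ := wd_spec hz
  have h3 : 2 ^ (c * n) ≤ num v := by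
    have := pow_le_num v
    rwa [hv] at this
  have h4 : 2 ^ (c * n) + (num v - 2 ^ (c * n)) = num v := by omega
  have h5 : bt acc N c n e a z t (num v - 2 ^ (c * n)) ≠ 0 ↔
      ∃ S < N (num (wd n z)), acc e (num (wd n z)) (num (α ++ b.take t ++ v)) S ≠ 0 := by
    unfold bt
    rw [h4, hpre, ← num_append, ← h2, Pool.Agent.Helper78.Avg.ne_zero_iff_lt01]
    have h6 : ∀ m : ℕ, lt01 0 (lt01 0 m) = 1 ↔ m ≠ 0 := by
      intro m
      rcases Nat.eq_zero_or_pos m with rfl | hm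
      · simp [lt01]
      · have h7 : lt01 0 m = 1 := by rw [lt01, if_pos hm]
        rw [h7]
        simp only [lt01, zero_lt_one, if_true, true_iff]
        omega
    rw [h6, Ne, sum_eq_zero_iff]
    push Not
    constructor
    · rintro ⟨S, hS, h⟩
      refine ⟨S, mem_range.1 hS, fun h0 => h ?_⟩
      rw [h0, lt01, if_neg (lt_irrefl 0)]
    · rintro ⟨S, hS, h⟩
      refine ⟨S, mem_range.2 hS, ?_⟩
      rw [lt01, if_pos (Nat.pos_of_ne_zero h)]
      exact one_ne_zero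
  rw [h5]
  obtain ⟨h6, h7⟩ := he (wd n z) (α ++ b.take t ++ v) (by omega)
  constructor
  · rintro ⟨S, hS, h⟩
    exact h6 S hS h
  · intro h
    exact h7 (hG _ _ _ h1 (List.length_take_le' _ _) hv h)

/-- The values of the queries. -/
theorem QV_eq {n : ℕ} {α b : List Bool} {a z : ℕ} {J : Finset ℕ} (hz : z < 2 ^ n)
    (htz : tz a = b.length) (hjb : ∀ t ≤ b.length, jb a t = 1 ↔ t ∈ J)
    (hpre : ∀ t ≤ b.length, pre a t = num (α ++ b.take t))
    (he : ∀ w y : List Bool, n₀ ≤ w.length →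
      (∀ S < N (num w), acc e (num w) (num y) S ≠ 0 → Acc w y) ∧
      (Good w y → ∃ S < N (num w), acc e (num w) (num y) S ≠ 0)) (hn : n₀ ≤ n)
    (hG : ∀ w u v : List Bool, w.length = n → u.length ≤ b.length → v.length = c * n →
      Acc w (α ++ u ++ v) → Good w (α ++ u ++ v)) (t : ℕ) :
    QV acc N c n e a z t = if t ≤ b.length ∧ t ∈ J then
      some (Qu Acc (c * n) α (wd n z) (b.take t)) else none := by
  classical
  unfold QV
  rw [htz]
  by_cases h1 : t ≤ b.length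
  · by_cases h2 : t ∈ J
    · rw [if_pos ⟨h1, (hjb t h1).2 h2⟩, if_pos ⟨h1, h2⟩]
      congr 1
      ext v
      simp only [Set.mem_ofPred_eq, Qu]
      refine and_congr_right fun hv => ?_
      exact bt_iff hz (hpre t h1) he hn hG hv
    · rw [if_neg fun h => h2 ((hjb t h1).1 h.2), if_neg fun h => h2 h.2]
  · rw [if_neg fun h => h1 h.1, if_neg fun h => h1 h.1]

end

/-! ### The number of classes -/

/-- The values for which all queries of the set `J` have the answer yes. -/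
def TT (B : Set (Set (List Bool))) (J : Finset ℕ) : Set (ℕ → Option (Set (List Bool))) :=
  {g | ∀ t ∈ J, ∃ Y ∈ B, g t = some Y}

theorem nv_le {n : ℕ} {F : ℕ → ℕ → Option (Set (List Bool))} {J : Finset ℕ}
    {B BS : Set (Set (List Bool))} (hfin : BS.Finite)
    (h0 : ∀ z < 2 ^ n, ∀ t, t ∉ J → F z t = none)
    (h1 : ∀ z < 2 ^ n, F z ∈ TT B J → ∀ t ∈ J, ∃ Y ∈ BS, F z t = some Y) :
    nv F n (TT B J) ≤ BS.ncard ^ J.card := by
  classical
  let φ : (ℕ → Option (Set (List Bool))) → (J → Set (List Bool)) := fun g t => (g t).getD ∅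
  have hcard : (Fintype.piFinset fun _ : J => hfin.toFinset).card = BS.ncard ^ J.card := by
    rw [Fintype.card_piFinset, prod_const, card_univ, Fintype.card_coe,
      Set.ncard_eq_toFinset_card BS hfin]
  rw [← hcard]
  unfold nv
  refine card_le_card_of_injOn φ ?_ ?_
  · intro g hg
    simp only [coe_filter, mem_image, mem_range, Set.mem_ofPred_eq] at hg
    obtain ⟨⟨z, hz, rfl⟩, hT⟩ := hg
    rw [mem_coe, Fintype.mem_piFinset]
    intro t
    obtain ⟨Y, hY, hY2⟩ := h1 z hz hT t t.2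
    show (F z t).getD ∅ ∈ hfin.toFinset
    rw [hY2]
    exact (Set.Finite.mem_toFinset hfin).2 hY
  · intro g hg g' hg' hgg
    simp only [coe_filter, mem_image, mem_range, Set.mem_ofPred_eq] at hg hg'
    obtain ⟨⟨z, hz, rfl⟩, hT⟩ := hg
    obtain ⟨⟨z', hz', rfl⟩, hT'⟩ := hg'
    funext t
    by_cases ht : t ∈ J
    · obtain ⟨Y, hY, hY2⟩ := h1 z hz hT t ht
      obtain ⟨Y', hY', hY2'⟩ := h1 z' hz' hT' t ht
      have h3 := congrFun hgg ⟨t, ht⟩
      change (F z t).getD ∅ = (F z' t).getD ∅ at h3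
      rw [hY2, hY2'] at h3 ⊢
      exact congrArg some h3
    · rw [h0 z hz t ht, h0 z' hz' t ht]

theorem nv_le_pow {β : Type} (F : ℕ → β) (n : ℕ) (T : Set β) : nv F n T ≤ 2 ^ n := by
  classical
  unfold nv
  refine (card_filter_le _ _).trans (card_image_le.trans ?_)
  rw [card_range]

theorem nv_le_ncard {β : Type} (F : ℕ → β) (n : ℕ) (T : Set β) {S : Set β} (hS : S.Finite)
    (h : ∀ z < 2 ^ n, F z ∈ S) : nv F n T ≤ S.ncard := by
  classical
  rw [Set.ncard_eq_toFinset_card S hS]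
  unfold nv
  refine card_le_card fun X hX => ?_
  obtain ⟨hX1, hX2⟩ := mem_filter.1 hX
  obtain ⟨z, hz, rfl⟩ := mem_image.1 hX1
  rw [Set.Finite.mem_toFinset]
  exact h z (mem_range.1 hz)

theorem nv_le_card {β : Type} (F : ℕ → β) (n : ℕ) (T : Set β) (hT : T.Finite) :
    nv F n T ≤ T.ncard := by
  classical
  rw [Set.ncard_eq_toFinset_card T hT]
  unfold nv
  refine card_le_card fun X hX => ?_
  rw [Set.Finite.mem_toFinset]
  exact (mem_filter.1 hX).2

theorem finite_queries (Acc : List Bool → List Bool → Prop) (c n i : ℕ) (α : List Bool)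
    (B : Set (Set (List Bool))) :
    {Y ∈ B | ∃ w u : List Bool, w.length = n ∧ u.length ≤ i ∧
      Qu Acc (c * n) α w u = Y}.Finite := by
  have h1 : {w : List Bool | w.length = n}.Finite := List.finite_length_eq Bool n
  have h2 : {u : List Bool | u.length ≤ i}.Finite := List.finite_length_le Bool i
  refine ((h1.prod h2).image fun p => Qu Acc (c * n) α p.1 p.2).subset ?_
  rintro Y ⟨-, w, u, hw, hu, rfl⟩
  exact ⟨(w, u), ⟨hw, hu⟩, rfl⟩

/-! ### The bounds for the language -/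

/-- `CORE` for the explicit language. -/
theorem core_bound (hG : GOOD_stmt) (hH : HOL_stmt) {β : Type}
    {E : ℕ → ℕ → ℕ → ℕ → ℕ → ℕ} {val : ℕ → ℕ → ℕ → ℕ → β} {k : ℕ} (hk : 0 < k)
    (hval : ∀ n e a z z', z < 2 ^ n → z' < 2 ^ n →
      (E n e a z z' = 0 ↔ val n e a z = val n e a z')) (e n : ℕ) (a : List Bool) (T : Set β) :
    sv (val n e (num a)) n T (fun z => (-1) ^ hs (pP n) (2 * k) (hid E k n) z) ^ (2 * k) ≤
      ((2 * k) ^ (2 * k + 1) * 2 ^ (2 * k * (e + 4)) * (a.length + 1) ^ 2 *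
        2 ^ (k * n + a.length) * nv (val n e (num a)) n Set.univ *
        nv (val n e (num a)) n T ^ (k - 1) : ℕ) := by
  classical
  set F := val n e (num a) with hF
  set g : ℕ → ℤ := fun z => (-1) ^ hs (pP n) (2 * k) (hid E k n) z with hg
  set m := a.length with hm
  have hlog : Nat.log 2 (num a) = m := Pool.Agent.Helper78.Avg.log_num a
  push_cast
  by_cases hc : e ≤ n ∧ m ≤ k * n
  · obtain ⟨he, hmk⟩ := hc
    obtain ⟨h1, h2⟩ := hH β k n F T g hk
    have h3 := Pool.Agent.Helper70.NS5.hid_good hval hG hk n he (a := num a)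
      (lt_of_lt_of_le (num_lt a) (Nat.pow_le_pow_right (by norm_num) (by omega)))
    refine Pool.Agent.Helper70.NS5.arith_main hk (Nat.cast_nonneg _) h1 (M := Mv F n) ?_ ?_
      (Nat.cast_nonneg _)
    · unfold thr at h3
      rw [hlog] at h3
      exact h3
    · exact_mod_cast h2
  · have hS : |sv F n T g| ≤ 2 ^ n := by
      unfold sv
      refine (abs_sum_le_sum_abs _ _).trans ?_
      have h4 : ∀ z ∈ (range (2 ^ n)).filter (fun z => F z ∈ T), |g z| = 1 := by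
        intro z _
        simp only [hg]
        rw [abs_pow, abs_neg, abs_one, one_pow]
      rw [sum_congr rfl h4, sum_const, nsmul_eq_mul, mul_one]
      have h5 : ((range (2 ^ n)).filter (fun z => F z ∈ T)).card ≤ 2 ^ n :=
        (card_filter_le _ _).trans (le_of_eq (card_range _))
      exact_mod_cast h5
    rcases Nat.eq_zero_or_pos (nv F n T) with h0 | hpos
    · have h5 : sv F n T g = 0 := by
        unfold sv
        rw [filter_eq_empty_iff.2, sum_empty]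
        intro z hz hzT
        unfold nv at h0
        rw [card_eq_zero, filter_eq_empty_iff] at h0
        exact h0 (mem_image_of_mem F hz) hzT
      rw [h5, zero_pow (by omega)]
      positivity
    · have hN' : 1 ≤ nv F n Set.univ := hpos.trans_le (Pool.Agent.Helper70.NS5.nv_mono F n T)
      have hN'z : (1 : ℤ) ≤ (nv F n Set.univ : ℤ) := by exact_mod_cast hN'
      have hNz : (1 : ℤ) ≤ (nv F n T : ℤ) ^ (k - 1) := by
        have : (1 : ℤ) ≤ (nv F n T : ℤ) := by exact_mod_cast hpos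
        exact one_le_pow₀ this
      have h6 : sv F n T g ^ (2 * k) ≤ 2 ^ (2 * k * n) := by
        rw [← Even.pow_abs (even_two_mul k)]
        refine (pow_le_pow_left₀ (abs_nonneg _) hS _).trans (le_of_eq ?_)
        rw [← pow_mul, mul_comm n (2 * k)]
      refine h6.trans ?_
      have h7 : (2 : ℤ) ^ (2 * k * n) ≤ 2 ^ (2 * k * (e + 4)) * 2 ^ (k * n + m) := by
        rw [← pow_add]
        refine pow_le_pow_right₀ (by norm_num) ?_
        rcases not_and_or.1 hc with h | h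
        · have h8 : 2 * k * n ≤ 2 * k * (e + 4) := Nat.mul_le_mul_left _ (by omega)
          omega
        · have h8 : 2 * k * n = k * n + k * n := by ring
          omega
      have hk1 : (1 : ℤ) ≤ (2 * (k : ℤ)) ^ (2 * k + 1) := one_le_pow₀ (by
        have : (1 : ℤ) ≤ (k : ℤ) := by exact_mod_cast hk
        linarith)
      have hm1 : (1 : ℤ) ≤ ((m : ℤ) + 1) ^ 2 := one_le_pow₀ (by
        have : (0 : ℤ) ≤ (m : ℤ) := Nat.cast_nonneg _
        linarith)
      calc (2 : ℤ) ^ (2 * k * n) ≤ 2 ^ (2 * k * (e + 4)) * 2 ^ (k * n + m) := h7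
        _ = 1 * 2 ^ (2 * k * (e + 4)) * 1 * 2 ^ (k * n + m) * 1 * 1 := by ring
        _ ≤ (2 * (k : ℤ)) ^ (2 * k + 1) * 2 ^ (2 * k * (e + 4)) * ((m : ℤ) + 1) ^ 2 *
            2 ^ (k * n + m) * (nv F n Set.univ : ℤ) * (nv F n T : ℤ) ^ (k - 1) := by
          gcongr

/-! ### Common lemmas of both parts -/

section

variable {n : ℕ} {L : Set (List Bool)} {h : ℕ → ℕ}

open Classical in
theorem count_le (hL : ∀ z < 2 ^ n, wd n z ∈ L ↔ h z % 2 = 1) (G : List Bool → Prop)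
    (M : Set (List Bool)) (hM : M = L ∨ M = Lᶜ) {X Y : ℝ}
    (h1 : |∑ z ∈ (range (2 ^ n)).filter (fun z => G (wd n z)), (-1 : ℝ) ^ h z| ≤ X)
    (h2 : |∑ z ∈ range (2 ^ n), (-1 : ℝ) ^ h z| ≤ Y) :
    ({w : List Bool | w.length = n ∧ (G w ↔ w ∈ M)}.ncard : ℝ) ≤ 2 ^ n / 2 + (X + Y / 2) := by
  have hcount := count_L L h hL G
  have hcompl := count_compl (n := n) L G
  have ha1 := abs_le.1 h1
  have ha2 := abs_le.1 h2
  rcases hM with rfl | rfl
  · rw [hcount]
    linarith [ha1.1, ha1.2, ha2.1, ha2.2]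
  · rw [hcompl, hcount]
    linarith [ha1.1, ha1.2, ha2.1, ha2.2]

end

section

variable {acc : ℕ → ℕ → ℕ → ℕ → ℕ} {N : ℕ → ℕ} {c k : ℕ} {L : Set (List Bool)}
  {h : ℕ → ℕ → ℕ}

/-- The statement `CORE` for the universal device. -/
def Core (acc : ℕ → ℕ → ℕ → ℕ → ℕ) (N : ℕ → ℕ) (c k : ℕ) (h : ℕ → ℕ → ℕ) : Prop :=
  ∀ (e n : ℕ) (a : List Bool) (T : Set (ℕ → Option (Set (List Bool)))),
      sv (QV acc N c n e (num a)) n T (fun z => (-1) ^ h n z) ^ (2 * (k + 1)) ≤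
          ((2 * (k + 1)) ^ (2 * (k + 1) + 1) * 2 ^ (2 * (k + 1) * (e + 4)) * (a.length + 1) ^ 2 *
            2 ^ ((k + 1) * n + a.length) * nv (QV acc N c n e (num a)) n Set.univ *
            nv (QV acc N c n e (num a)) n T ^ (k + 1 - 1) : ℕ)

theorem cast_sv (n : ℕ) (F : ℕ → ℕ → Option (Set (List Bool)))
    (T : Set (ℕ → Option (Set (List Bool)))) [DecidablePred fun z => F z ∈ T] :
    ((sv F n T fun z => (-1) ^ h n z : ℤ) : ℝ) =
      ∑ z ∈ (range (2 ^ n)).filter (fun z => F z ∈ T), (-1 : ℝ) ^ h n z := by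
  classical
  unfold sv
  push_cast
  congr 1
  exact filter_congr_decidable _ _ _

/-- The sum over all words. -/
theorem tot_le (hUS : UQS_stmt) (hN : NUM_stmt) (hcore : Core acc N c k h) (e n : ℕ) :
    |∑ z ∈ range (2 ^ n), (-1 : ℝ) ^ h n z| ≤
      (2 * ((k : ℝ) + 1)) ^ 2 * 2 ^ (e + 4) * 48 *
        (2 ^ ((n : ℝ) / 2) * (2 ^ (n : ℝ)) ^ (1 / (2 * (k : ℝ) + 2))) := by
  classical
  obtain ⟨a, ha1, ha2, ha3, ha4⟩ := hUS.2 0 [] [] ∅ rfl
  have hQ : ∀ z, QV acc N c n e (num a) z = fun _ => none := by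
    intro z
    funext t
    unfold QV
    rw [ha2]
    refine if_neg fun hh => ?_
    have := (ha3 t hh.1).1 hh.2
    simp at this
  have hval : nv (QV acc N c n e (num a)) n (TT ∅ ∅) ≤ 1 := by
    unfold nv
    refine (card_filter_le _ _).trans (card_le_one.2 ?_)
    intro x hx y hy
    obtain ⟨z, -, rfl⟩ := mem_image.1 hx
    obtain ⟨z', -, rfl⟩ := mem_image.1 hy
    rw [hQ, hQ]
  have hc := hcore e n a (TT ∅ ∅)
  rw [ha1] at hc
  have hnum := hN k e n 0 0 _ _ 0 _ hc (nv_le_pow _ _ _) (by simpa using hval)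
  rw [cast_sv] at hnum
  have hfil : (range (2 ^ n)).filter (fun z => QV acc N c n e (num a) z ∈ TT ∅ ∅) =
      range (2 ^ n) :=
    filter_true_of_mem fun _ _ => by simp [TT]
  rw [hfil] at hnum
  refine hnum.trans (le_of_eq ?_)
  simp only [Nat.cast_zero, zero_add, one_pow, add_zero, mul_one, pow_one]
  ring

end

/-! ### Part 1 -/

theorem part1 (hX : EXP_stmt) (hUS : UQS_stmt) (hN : NUM_stmt)
    {acc : ℕ → ℕ → ℕ → ℕ → ℕ} {N : ℕ → ℕ} {c k : ℕ} {L : Set (List Bool)} {h : ℕ → ℕ → ℕ}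
    (hmem : ∀ w, w ∈ L ↔ h w.length (num w - 2 ^ w.length) % 2 = 1)
    (hcore : Core acc N c k h) {Acc Good : List Bool → List Bool → Prop} {e n₀ : ℕ}
    (he : ∀ w y : List Bool, n₀ ≤ w.length →
      (∀ S < N (num w), acc e (num w) (num y) S ≠ 0 → Acc w y) ∧
      (Good w y → ∃ S < N (num w), acc e (num w) (num y) S ≠ 0))
    {A C : ℝ} (hA : A = (2 * ((k : ℝ) + 1)) ^ 2 * 2 ^ (e + 4)) (hC : C = A * 288 * 2 ^ n₀)
    (n i : ℕ) (α : List Bool) (B : Set (Set (List Bool)))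
    (hG : ∀ w u v : List Bool, w.length = n → u.length ≤ i → v.length = c * n →
      Acc w (α ++ u ++ v) → Good w (α ++ u ++ v))
    (M : Set (List Bool)) (hM : M = L ∨ M = Lᶜ) :
    ({w : List Bool | w.length = n ∧
      (Qu Acc (c * n) α w (ans (fun u => Qu Acc (c * n) α w u ∈ B) i) ∈ B ↔
        w ∈ M)}.ncard : ℝ) ≤
    2 ^ n / 2 + C ^ (i + 1) * ((α.length : ℝ) + 1) * 2 ^ ((n : ℝ) / 2) *
      (2 ^ ((n : ℝ) + α.length) *
        (({Y ∈ B | ∃ w u : List Bool, w.length = n ∧ u.length ≤ i ∧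
          Qu Acc (c * n) α w u = Y}.ncard : ℝ) + 1) ^ ((i + 1) * k)) ^
        (1 / (2 * (k : ℝ) + 2)) := by
  classical
  have hk0 : (0 : ℝ) ≤ k := Nat.cast_nonneg k
  have hA1 : 1 ≤ A := by
    rw [hA]
    have h1 : (1 : ℝ) ≤ (2 * ((k : ℝ) + 1)) ^ 2 := by nlinarith
    have h2 : (1 : ℝ) ≤ 2 ^ (e + 4) := one_le_pow₀ (by norm_num)
    nlinarith
  have hn01 : (1 : ℝ) ≤ 2 ^ n₀ := one_le_pow₀ (by norm_num)
  set BS : Set (Set (List Bool)) := {Y ∈ B | ∃ w u : List Bool, w.length = n ∧ u.length ≤ i ∧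
      Qu Acc (c * n) α w u = Y} with hBS
  have hfin : BS.Finite := finite_queries Acc c n i α B
  set m := α.length with hm
  obtain ⟨W, hW⟩ : ∃ W : ℝ, W = 2 ^ ((n : ℝ) / 2) *
      (2 ^ ((n : ℝ) + m) * ((BS.ncard : ℝ) + 1) ^ ((i + 1) * k)) ^ (1 / (2 * (k : ℝ) + 2)) :=
    ⟨_, rfl⟩
  have hN0 : (0 : ℝ) ≤ BS.ncard := Nat.cast_nonneg _
  have hm0 : (0 : ℝ) ≤ m := Nat.cast_nonneg m
  have hNp : (1 : ℝ) ≤ ((BS.ncard : ℝ) + 1) ^ ((i + 1) * k) := one_le_pow₀ (by linarith)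
  -- the sum over all words is smaller
  have hW0 : (2 : ℝ) ^ ((n : ℝ) / 2) * (2 ^ (n : ℝ)) ^ (1 / (2 * (k : ℝ) + 2)) ≤ W := by
    rw [hW]
    refine mul_le_mul_of_nonneg_left ?_ (by positivity)
    refine Real.rpow_le_rpow (by positivity) ?_ (by positivity)
    have h1 : (2 : ℝ) ^ (n : ℝ) ≤ 2 ^ ((n : ℝ) + m) :=
      Real.rpow_le_rpow_of_exponent_le (by norm_num) (by linarith)
    calc (2 : ℝ) ^ (n : ℝ) = 2 ^ (n : ℝ) * 1 := (mul_one _).symm
      _ ≤ _ := mul_le_mul h1 hNp (by norm_num) (by positivity)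
  have hW1 : 1 ≤ W := by
    refine le_trans ?_ hW0
    have h1 : (1 : ℝ) ≤ 2 ^ ((n : ℝ) / 2) := Real.one_le_rpow (by norm_num) (by positivity)
    have h2 : (1 : ℝ) ≤ 2 ^ (n : ℝ) := Real.one_le_rpow (by norm_num) (by positivity)
    have h4 : (1 : ℝ) ≤ (2 ^ (n : ℝ)) ^ (1 / (2 * (k : ℝ) + 2)) :=
      Real.one_le_rpow h2 (by positivity)
    nlinarith
  have hc1 : 1 ≤ C := by rw [hC]; nlinarith
  have goal_eq : 2 ^ n / 2 + C ^ (i + 1) * ((m : ℝ) + 1) * 2 ^ ((n : ℝ) / 2) *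
            (2 ^ ((n : ℝ) + m) * ((BS.ncard : ℝ) + 1) ^ ((i + 1) * k)) ^
              (1 / (2 * (k : ℝ) + 2)) =
      2 ^ n / 2 + C ^ (i + 1) * ((m : ℝ) + 1) * W := by
    rw [hW]
    ring
  rw [goal_eq]
  have hpow : C ≤ C ^ (i + 1) := le_self_pow₀ hc1 (Nat.succ_ne_zero i)
  rcases Nat.lt_or_ge n n₀ with hn | hn
  · have h2 : ({w : List Bool | w.length = n ∧
            (Qu Acc (c * n) α w (ans (fun u => Qu Acc (c * n) α w u ∈ B) i) ∈ B ↔
              w ∈ M)}.ncard : ℝ) ≤ 2 ^ n := ncard_le_pow (fun w hw => hw.1)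
    have h3 : (2 : ℝ) ^ n ≤ 2 ^ n₀ := pow_le_pow_right₀ (by norm_num) hn.le
    have h5 : (0 : ℝ) ≤ 2 ^ n := by positivity
    have h6 : (2 : ℝ) ^ n₀ ≤ C := by rw [hC]; nlinarith
    have h7 : C * 1 * 1 ≤ C ^ (i + 1) * ((m : ℝ) + 1) * W := by
      refine mul_le_mul (mul_le_mul hpow (by linarith) (by norm_num) (by positivity)) hW1
        (by norm_num) (by positivity)
    linarith
  -- correlations of the classes
  set G : ℕ → List Bool → Prop := fun z u => Qu Acc (c * n) α (wd n z) u ∈ B with hGdef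
  have hclass : ∀ b : List Bool, b.length = i → ∀ J : Finset ℕ, J ⊆ range i →
      |∑ z ∈ (range (2 ^ n)).filter (fun z => G z b ∧ ∀ t ∈ J, G z (b.take t)),
        (-1 : ℝ) ^ h n z| ≤ A * 48 ^ (i + 1) * ((m : ℝ) + 1) * W := by
    intro b hb J hJ
    obtain ⟨a, ha1, ha2, ha3, ha4⟩ := hUS.2 i b α (insert i J) hb
    have hi : i ∉ J := fun h => by
      have := mem_range.1 (hJ h)
      omega
    have hQ : ∀ z < 2 ^ n, ∀ t, QV acc N c n e (num a) z t =
        if t ≤ b.length ∧ t ∈ insert i J then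
          some (Qu Acc (c * n) α (wd n z) (b.take t)) else none := by
      intro z hz t
      subst hb
      exact QV_eq hz ha2 ha3 ha4 he hn hG t
    have hle : ∀ t ∈ insert i J, t ≤ b.length := by
      intro t ht
      rw [hb]
      rcases mem_insert.1 ht with rfl | ht
      · exact le_rfl
      · exact (mem_range.1 (hJ ht)).le
    have hT : ∀ z < 2 ^ n, (QV acc N c n e (num a) z ∈ TT B (insert i J) ↔
        (G z b ∧ ∀ t ∈ J, G z (b.take t))) := by
      intro z hz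
      have h1 : QV acc N c n e (num a) z ∈ TT B (insert i J) ↔
          ∀ t ∈ insert i J, G z (b.take t) := by
        unfold TT
        rw [Set.mem_ofPred_eq]
        refine forall₂_congr fun t ht => ?_
        rw [hQ z hz t, if_pos ⟨hle t ht, ht⟩]
        constructor
        · rintro ⟨Y, hY, hY2⟩
          rw [Option.some.injEq] at hY2
          rw [hGdef]
          dsimp only
          rw [hY2]
          exact hY
        · intro hh
          exact ⟨_, hh, rfl⟩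
      rw [h1, forall_mem_insert]
      have h2 : b.take i = b := by rw [← hb, List.take_length]
      rw [h2]
    have hnv : nv (QV acc N c n e (num a)) n (TT B (insert i J)) ≤ (BS.ncard + 1) ^ (i + 1) := by
      refine (nv_le (B := B) (BS := BS) hfin ?_ ?_).trans ?_
      · intro z hz t ht
        rw [hQ z hz t, if_neg fun h => ht h.2]
      · intro z hz hz2 t ht
        obtain ⟨Y, hY, hY2⟩ := hz2 t ht
        refine ⟨Y, ⟨hY, wd n z, b.take t, (wd_spec hz).1, ?_, ?_⟩, hY2⟩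
        · rw [← hb]
          exact List.length_take_le' _ _
        · rw [hQ z hz t, if_pos ⟨hle t ht, ht⟩, Option.some.injEq] at hY2
          exact hY2
      · refine (Nat.pow_le_pow_left (Nat.le_succ _) _).trans
          (Nat.pow_le_pow_right (Nat.succ_pos _) ?_)
        rw [card_insert_of_notMem hi]
        have := card_le_card hJ
        rw [card_range] at this
        omega
    have hc := hcore e n a (TT B (insert i J))
    rw [ha1] at hc
    have hnum := hN k e n i m _ _ BS.ncard _ hc (nv_le_pow _ _ _) hnv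
    rw [cast_sv] at hnum
    have hsum : ∑ z ∈ (range (2 ^ n)).filter (fun z => G z b ∧ ∀ t ∈ J, G z (b.take t)),
        (-1 : ℝ) ^ h n z = ∑ z ∈ (range (2 ^ n)).filter
          (fun z => QV acc N c n e (num a) z ∈ TT B (insert i J)), (-1 : ℝ) ^ h n z := by
      congr 1
      exact filter_congr fun z hz => (hT z (mem_range.1 hz)).symm
    rw [hsum]
    refine hnum.trans (le_of_eq ?_)
    rw [hW, hA]
    ring
  have hexp := hX (range (2 ^ n)) (fun z => (-1 : ℝ) ^ h n z) G _ i hclass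
  have htot := tot_le hUS hN hcore e n
  rw [← hA] at htot
  -- the number of correct answers
  have hwL : ∀ z < 2 ^ n, wd n z ∈ L ↔ h n z % 2 = 1 := by
    intro z hz
    obtain ⟨h1, h2⟩ := wd_spec hz
    rw [hmem, h1, h2, Nat.add_sub_cancel_left]
  have hcount := count_le hwL
    (fun w => Qu Acc (c * n) α w (ans (fun u => Qu Acc (c * n) α w u ∈ B) i) ∈ B) M hM
    hexp htot
  refine hcount.trans (add_le_add le_rfl ?_)
  obtain ⟨Y, hY⟩ : ∃ Y : ℝ, Y = A * 48 ^ (i + 1) * ((m : ℝ) + 1) * W := ⟨_, rfl⟩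
  have hY0 : 0 ≤ Y := by rw [hY]; positivity
  have hY1 : A * 48 * ((2 : ℝ) ^ ((n : ℝ) / 2) * (2 ^ (n : ℝ)) ^ (1 / (2 * (k : ℝ) + 2))) ≤ Y := by
    rw [hY]
    have h2 : (48 : ℝ) ≤ 48 ^ (i + 1) := le_self_pow₀ (by norm_num) (Nat.succ_ne_zero i)
    calc A * 48 * ((2 : ℝ) ^ ((n : ℝ) / 2) * (2 ^ (n : ℝ)) ^ (1 / (2 * (k : ℝ) + 2)))
        ≤ A * 48 ^ (i + 1) * W := by gcongr
      _ = A * 48 ^ (i + 1) * 1 * W := by ring
      _ ≤ _ := by gcongr; linarith
  rw [← hY]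
  have h31 : (1 : ℝ) ≤ 3 ^ i := one_le_pow₀ (by norm_num)
  have h1 : 3 ^ i * Y + A * 48 * ((2 : ℝ) ^ ((n : ℝ) / 2) *
      (2 ^ (n : ℝ)) ^ (1 / (2 * (k : ℝ) + 2))) / 2 ≤ (2 * 3 ^ i) * Y := by nlinarith
  refine h1.trans ?_
  have h2 : (2 : ℝ) * 3 ^ i ≤ 6 ^ (i + 1) := by
    have h3 : (6 : ℝ) ^ (i + 1) = 2 ^ i * 2 * 3 * 3 ^ i := by
      rw [pow_succ, show (6 : ℝ) = 2 * 3 by norm_num, mul_pow]
      ring
    have h4 : (1 : ℝ) ≤ 2 ^ i := one_le_pow₀ (by norm_num)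
    rw [h3]
    nlinarith
  have h5 : A ≤ A ^ (i + 1) := le_self_pow₀ hA1 (Nat.succ_ne_zero i)
  have h6 : (1 : ℝ) ≤ (2 ^ n₀) ^ (i + 1) := one_le_pow₀ hn01
  have h7 : (2 * 3 ^ i) * (A * 48 ^ (i + 1)) ≤ C ^ (i + 1) := by
    rw [hC, mul_pow, mul_pow, show (288 : ℝ) = 6 * 48 by norm_num, mul_pow]
    calc (2 * 3 ^ i) * (A * 48 ^ (i + 1)) ≤ 6 ^ (i + 1) * (A ^ (i + 1) * 48 ^ (i + 1)) := by
          gcongr
      _ = A ^ (i + 1) * (6 ^ (i + 1) * 48 ^ (i + 1)) * 1 := by ring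
      _ ≤ _ := by gcongr
  calc (2 * 3 ^ i) * Y = (2 * 3 ^ i) * (A * 48 ^ (i + 1)) * ((m : ℝ) + 1) * W := by
        rw [hY]
        ring
    _ ≤ _ := by gcongr

/-! ### Part 2 -/

open Classical in
/-- If the class of every `z` is the class of `z` for one of the functions `V b`, `b < R`, then the
moment is at most the sum of the moments. -/
theorem Yv_le_sum {β γ : Type} (F : ℕ → β) (V : ℕ → ℕ → γ) (n k R : ℕ) (g : ℕ → ℤ)
    (hV : ∀ z < 2 ^ n, ∃ b < R, ∀ z' < 2 ^ n, (F z' = F z ↔ V b z' = V b z)) :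
    Yv F n k g ≤ ∑ b ∈ range R, Yv (V b) n k g := by
  unfold Yv
  rw [sum_comm]
  refine sum_le_sum fun z hz => ?_
  obtain ⟨b, hb, hb2⟩ := hV z (mem_range.1 hz)
  have h1 : (range (2 ^ n)).filter (fun z' => F z' = F z) =
      (range (2 ^ n)).filter (fun z' => V b z' = V b z) :=
    filter_congr fun z' hz' => hb2 z' (mem_range.1 hz')
  have h2 : dev F n g z = dev (V b) n g z := by
    unfold dev
    rw [h1]
  have h3 : cs F n z = cs (V b) n z := by
    unfold cs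
    rw [h1]
  rw [h2, h3]
  refine single_le_sum (f := fun b => dev (V b) n g z ^ (2 * k) *
    2 ^ ((k + 1) * (n - Nat.log 2 (cs (V b) n z)))) (fun b _ => ?_) (mem_range.2 hb)
  have h4 : (0 : ℤ) ≤ dev (V b) n g z ^ (2 * k) := (even_two_mul k).pow_nonneg _
  positivity

theorem Mv_le {β : Type} (F : ℕ → β) (n : ℕ) : Mv F n ≤ 2 ^ (2 * n) := by
  unfold Mv
  calc _ ≤ ∑ z ∈ range (2 ^ n), 2 ^ n :=
        sum_le_sum fun z _ => Nat.pow_le_pow_right (by norm_num) (Nat.sub_le _ _)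
    _ = 2 ^ (2 * n) := by
        rw [sum_const, card_range, smul_eq_mul, ← pow_add]
        congr 1
        ring

/-- The machine which is simulated accepts. -/
def SimA (acc : ℕ → ℕ → ℕ → ℕ → ℕ) (N : ℕ → ℕ) (e : ℕ) (w y : List Bool) : Prop :=
  ∃ S < N (num w), acc e (num w) (num y) S ≠ 0

theorem simA_spec (acc : ℕ → ℕ → ℕ → ℕ → ℕ) (N : ℕ → ℕ) (e : ℕ) (w y : List Bool)
    (_ : 0 ≤ w.length) :
    (∀ S < N (num w), acc e (num w) (num y) S ≠ 0 → SimA acc N e w y) ∧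
      (SimA acc N e w y → ∃ S < N (num w), acc e (num w) (num y) S ≠ 0) :=
  ⟨fun S hS h => ⟨S, hS, h⟩, fun h => h⟩

/-- The sum over the words whose sequence of queries is in a set `T₀`. -/
theorem talk_sv (hH : HOL_stmt) (hUS : UQS_stmt) (hK : TLK_stmt) (hT : NUT_stmt)
    {acc : ℕ → ℕ → ℕ → ℕ → ℕ} {N : ℕ → ℕ} {c k : ℕ} {h : ℕ → ℕ → ℕ}
    (hY : ∀ e n : ℕ, e ≤ n → ∀ a < 2 ^ ((k + 1) * n + 1),
      Yv (QV acc N c n e a) n (k + 1) (fun z => (-1) ^ h n z) ≤
        (thr (k + 1) n e a (Mv (QV acc N c n e a) n) : ℤ))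
    (e n i : ℕ) (α : List Bool) (B T₀ : Set (List (Set (List Bool)))) (T : ℕ) (hpos : 1 ≤ T)
    (hnv : nv (fun z => (talk (Qu (SimA acc N e) (c * n) α (wd n z)) B (i + 1)).2) n T₀ ≤ T) :
    |((sv (fun z => (talk (Qu (SimA acc N e) (c * n) α (wd n z)) B (i + 1)).2) n T₀
        (fun z => (-1) ^ h n z) : ℤ) : ℝ)| ≤
      (2 * ((k : ℝ) + 1)) ^ 2 * 2 ^ (e + 4) * 3 * ((α.length : ℝ) + i + 1) *
      2 ^ ((n : ℝ) / 2) *
      (2 ^ ((n : ℝ) + α.length + 4 * (i + 1)) * (T : ℝ) ^ k) ^ (1 / (2 * (k : ℝ) + 2)) := by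
  classical
  set m := α.length with hm
  set F : ℕ → List (Set (List Bool)) := fun z =>
    (talk (Qu (SimA acc N e) (c * n) α (wd n z)) B (i + 1)).2 with hF
  set g : ℕ → ℤ := fun z => (-1) ^ h n z with hg
  refine hT k e n i m T (sv F n T₀ g) hpos ?_
  by_cases hc : e ≤ n ∧ m + 3 * i + 2 ≤ (k + 1) * n
  · left
    obtain ⟨hen, hmn⟩ := hc
    choose a ha1 ha2 ha3 ha4 using fun b' : ℕ => fun hb' : b' < 2 ^ i =>
      hUS.2 i (wd i b') α (range (i + 1)) (wd_spec hb').1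
    let V : ℕ → ℕ → ℕ → Option (Set (List Bool)) := fun b' =>
      if hb' : b' < 2 ^ i then QV acc N c n e (num (a b' hb')) else fun _ _ => none
    have hVdef : ∀ b' (hb' : b' < 2 ^ i), V b' = QV acc N c n e (num (a b' hb')) := by
      intro b' hb'
      exact dif_pos hb'
    have hVeq : ∀ b' (hb' : b' < 2 ^ i), ∀ z < 2 ^ n, ∀ z' < 2 ^ n,
        (V b' z' = V b' z ↔ ∀ t ≤ i,
          Qu (SimA acc N e) (c * n) α (wd n z') ((wd i b').take t) =
          Qu (SimA acc N e) (c * n) α (wd n z) ((wd i b').take t)) := by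
      intro b' hb' z hz z' hz'
      have hlen := (wd_spec hb').1
      have hQ : ∀ z < 2 ^ n, ∀ t, QV acc N c n e (num (a b' hb')) z t =
          if t ≤ (wd i b').length ∧ t ∈ range (i + 1) then
            some (Qu (SimA acc N e) (c * n) α (wd n z) ((wd i b').take t)) else none := by
        intro z hz t
        refine QV_eq (Acc := SimA acc N e) (Good := SimA acc N e) (n₀ := 0) hz ?_ ?_ ?_
          (simA_spec acc N e) (Nat.zero_le _) (fun _ _ _ _ _ _ h => h) t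
        · rw [ha2 b' hb', hlen]
        · rw [hlen]; exact ha3 b' hb'
        · rw [hlen]; exact ha4 b' hb'
      rw [hVdef b' hb']
      constructor
      · intro heq t ht
        have h1 := congrFun heq t
        rw [hQ z hz t, hQ z' hz' t, if_pos ⟨by omega, mem_range.2 (by omega)⟩,
          if_pos ⟨by omega, mem_range.2 (by omega)⟩] at h1
        exact Option.some.inj h1
      · intro hall
        funext t
        rw [hQ z hz t, hQ z' hz' t]
        by_cases ht : t ≤ i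
        · rw [if_pos ⟨by omega, mem_range.2 (by omega)⟩,
            if_pos ⟨by omega, mem_range.2 (by omega)⟩, hall t ht]
        · rw [if_neg fun hh => ht (by have := hh.1; omega),
            if_neg fun hh => ht (by have := hh.1; omega)]
    have hYle : Yv F n (k + 1) g ≤ ∑ b' ∈ range (2 ^ i), Yv (V b') n (k + 1) g := by
      refine Yv_le_sum F V n (k + 1) (2 ^ i) g fun z hz => ?_
      obtain ⟨hl, -⟩ := hK _ (Qu (SimA acc N e) (c * n) α (wd n z))
        (Qu (SimA acc N e) (c * n) α (wd n z)) B i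
      have hlt : num (talk (Qu (SimA acc N e) (c * n) α (wd n z)) B i).1 - 2 ^ i < 2 ^ i := by
        have h1 := num_lt (talk (Qu (SimA acc N e) (c * n) α (wd n z)) B i).1
        have h2 := pow_le_num (talk (Qu (SimA acc N e) (c * n) α (wd n z)) B i).1
        rw [hl] at h1 h2
        rw [pow_succ] at h1
        omega
      refine ⟨_, hlt, fun z' hz' => ?_⟩
      rw [hVeq _ hlt z hz z' hz', wd_num hl]
      obtain ⟨-, hh⟩ := hK _ (Qu (SimA acc N e) (c * n) α (wd n z))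
        (Qu (SimA acc N e) (c * n) α (wd n z')) B i
      rw [hF]
      dsimp only
      rw [eq_comm, hh]
      refine forall₂_congr fun t _ => eq_comm
    have hthr : ∀ b' ∈ range (2 ^ i), Yv (V b') n (k + 1) g ≤
        (((2 * (k + 1)) ^ (2 * (k + 1) + 1) * 2 ^ (2 * n) * ((m + 3 * i + 2) + 1) ^ 2 *
          2 ^ ((k + 1) * (n + 1) + (m + 3 * i + 2) + 2 * e + 4) : ℕ) : ℤ) := by
      intro b' hb
      have hb' := mem_range.1 hb
      rw [hVdef b' hb']
      have h1 : num (a b' hb') < 2 ^ ((k + 1) * n + 1) := by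
        refine (num_lt _).trans_le (Nat.pow_le_pow_right (by norm_num) ?_)
        rw [ha1]
        omega
      refine (hY e n hen _ h1).trans ?_
      have h2 : Nat.log 2 (num (a b' hb')) = m + 3 * i + 2 := by
        rw [Pool.Agent.Helper78.Avg.log_num, ha1]
      unfold thr
      rw [h2]
      have h3 := Mv_le (QV acc N c n e (num (a b' hb'))) n
      have h4 : (2 * (k + 1)) ^ (2 * (k + 1) + 1) *
          Mv (QV acc N c n e (num (a b' hb'))) n * (m + 3 * i + 2 + 1) ^ 2 *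
          2 ^ ((k + 1) * (n + 1) + (m + 3 * i + 2) + 2 * e + 4) ≤
          (2 * (k + 1)) ^ (2 * (k + 1) + 1) * 2 ^ (2 * n) * ((m + 3 * i + 2) + 1) ^ 2 *
          2 ^ ((k + 1) * (n + 1) + (m + 3 * i + 2) + 2 * e + 4) := by gcongr
      exact_mod_cast h4
    have hsum := hYle.trans (sum_le_sum hthr)
    rw [sum_const, card_range, nsmul_eq_mul] at hsum
    obtain ⟨hhol, -⟩ := hH _ (k + 1) n F T₀ g (Nat.succ_pos k)
    rw [Nat.add_sub_cancel] at hhol
    have hY0 : 0 ≤ Yv F n (k + 1) g := by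
      unfold Yv
      refine sum_nonneg fun z _ => ?_
      have h4 : (0 : ℤ) ≤ dev F n g z ^ (2 * (k + 1)) := (even_two_mul _).pow_nonneg _
      positivity
    calc (2 : ℤ) ^ n * sv F n T₀ g ^ (2 * (k + 1)) ≤ (nv F n T₀ : ℤ) ^ k * Yv F n (k + 1) g :=
          hhol
      _ ≤ (T : ℤ) ^ k * _ := mul_le_mul
          (pow_le_pow_left₀ (Nat.cast_nonneg _) (by exact_mod_cast hnv) _) hsum hY0
          (by positivity)
      _ = _ := by
          push_cast
          ring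
  · right
    refine ⟨?_, by omega⟩
    unfold sv
    refine (abs_sum_le_sum_abs _ _).trans ?_
    have h4 : ∀ z ∈ (range (2 ^ n)).filter (fun z => F z ∈ T₀), |g z| = 1 := by
      intro z _
      simp only [hg]
      rw [abs_pow, abs_neg, abs_one, one_pow]
    rw [sum_congr rfl h4, sum_const, nsmul_eq_mul, mul_one]
    have h5 : ((range (2 ^ n)).filter (fun z => F z ∈ T₀)).card ≤ 2 ^ n :=
      (card_filter_le _ _).trans (le_of_eq (card_range _))
    exact_mod_cast h5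

open Classical in
/-- Counting with a restriction. -/
theorem count_le2 {n : ℕ} {L : Set (List Bool)} {h : ℕ → ℕ}
    (hL : ∀ z < 2 ^ n, wd n z ∈ L ↔ h z % 2 = 1) (P G : List Bool → Prop)
    (M : Set (List Bool)) (hM : M = L ∨ M = Lᶜ) {X : ℝ}
    (h1 : |∑ z ∈ (range (2 ^ n)).filter (fun z => P (wd n z) ∧ G (wd n z)), (-1 : ℝ) ^ h z| ≤ X)
    (h2 : |∑ z ∈ (range (2 ^ n)).filter (fun z => P (wd n z) ∧ ¬ G (wd n z)),
      (-1 : ℝ) ^ h z| ≤ X) :
    ({w : List Bool | w.length = n ∧ (P w ∧ (G w ↔ w ∈ M))}.ncard : ℝ) ≤ 2 ^ n / 2 + X := by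
  have ha1 := abs_le.1 h1
  have ha2 := abs_le.1 h2
  have h3 : ∑ z ∈ range (2 ^ n), (1 : ℝ) / 2 = 2 ^ n / 2 := by
    rw [sum_const, card_range, nsmul_eq_mul]
    push_cast
    ring
  rw [ncard_wd n fun w => (P w ∧ (G w ↔ w ∈ M)), card_filter]
  push_cast
  have hval : ∀ z < 2 ^ n, (wd n z ∈ L ∧ (-1 : ℝ) ^ h z = -1) ∨
      (wd n z ∉ L ∧ (-1 : ℝ) ^ h z = 1) := by
    intro z hz
    have h2 := hL z hz
    rcases Nat.mod_two_eq_zero_or_one (h z) with h3 | h3
    · right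
      refine ⟨fun h5 => ?_, Even.neg_one_pow (Nat.even_iff.2 h3)⟩
      rw [h2] at h5
      omega
    · left
      exact ⟨h2.2 h3, Odd.neg_one_pow (Nat.odd_iff.2 h3)⟩
  rw [sum_filter] at ha1 ha2
  rcases hM with hM | hM
  · have key : ∑ z ∈ range (2 ^ n), (if P (wd n z) ∧ (G (wd n z) ↔ wd n z ∈ M) then (1 : ℝ) else 0) ≤
        ∑ z ∈ range (2 ^ n), ((1 : ℝ) / 2 -
          (if P (wd n z) ∧ G (wd n z) then (-1 : ℝ) ^ h z else 0) / 2 +
          (if P (wd n z) ∧ ¬ G (wd n z) then (-1 : ℝ) ^ h z else 0) / 2) := by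
      refine sum_le_sum fun z hz => ?_
      have hMz : wd n z ∈ M ↔ wd n z ∈ L := by rw [hM]
      rcases hval z (mem_range.1 hz) with ⟨h4, h5⟩ | ⟨h4, h5⟩ <;> rw [h5] <;>
        by_cases hP : P (wd n z) <;> by_cases hG : G (wd n z) <;>
          simp [hP, hG, hMz, h4] <;> norm_num
    rw [sum_add_distrib, sum_sub_distrib, h3, ← sum_div, ← sum_div] at key
    linarith [ha1.1, ha1.2, ha2.1, ha2.2]
  · have key : ∑ z ∈ range (2 ^ n),
        (if P (wd n z) ∧ (G (wd n z) ↔ wd n z ∈ M) then (1 : ℝ) else 0) ≤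
        ∑ z ∈ range (2 ^ n), ((1 : ℝ) / 2 +
          (if P (wd n z) ∧ G (wd n z) then (-1 : ℝ) ^ h z else 0) / 2 -
          (if P (wd n z) ∧ ¬ G (wd n z) then (-1 : ℝ) ^ h z else 0) / 2) := by
      refine sum_le_sum fun z hz => ?_
      have hMz : wd n z ∈ M ↔ wd n z ∉ L := by rw [hM]; exact Set.mem_compl_iff _ _
      rcases hval z (mem_range.1 hz) with ⟨h4, h5⟩ | ⟨h4, h5⟩ <;> rw [h5] <;>
        by_cases hP : P (wd n z) <;> by_cases hG : G (wd n z) <;>
          simp [hP, hG, hMz, h4] <;> norm_num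
    rw [sum_sub_distrib, sum_add_distrib, h3, ← sum_div, ← sum_div] at key
    linarith [ha1.1, ha1.2, ha2.1, ha2.2]

/-! ### The theorems -/

section

variable {acc : ℕ → ℕ → ℕ → ℕ → ℕ} {N : ℕ → ℕ} {c k : ℕ} {L : Set (List Bool)}
  {h : ℕ → ℕ → ℕ}

/-- A set of words of length `n` has at most `2 ^ n` elements. -/
theorem card_le_pow {n : ℕ} {S : Set (List Bool)} (hS : ∀ w ∈ S, w.length = n) :
    (S.ncard : ℝ) ≤ 2 ^ n := ncard_le_pow fun w hw => hS w hw

theorem ans_congr {G G' : List Bool → Prop} {i : ℕ}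
    (h : ∀ t < i, (G' (ans G t) ↔ G (ans G t))) : ∀ t ≤ i, ans G' t = ans G t := by
  intro t
  induction t with
  | zero => intro _; rfl
  | succ t ih =>
    intro ht
    have h1 := ih (by omega)
    unfold ans
    rw [h1]
    congr 2
    exact decide_eq_decide.2 (h t (by omega))

theorem card_le_of_subset {n : ℕ} {S T : Set (List Bool)} (hST : S ⊆ T)
    (hT : ∀ w ∈ T, w.length = n) : (S.ncard : ℝ) ≤ T.ncard := by
  have hfin : T.Finite := (List.finite_length_eq Bool n).subset fun w hw => hT w hw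
  exact_mod_cast Set.ncard_le_ncard hST hfin

/-- **Part 1.** Adaptive queries to a set which contains few of the queries. -/
theorem sparse_bound (hX : EXP_stmt) (hUS : UQS_stmt) (hN : NUM_stmt)
    (hmem : ∀ w, w ∈ L ↔ h w.length (num w - 2 ^ w.length) % 2 = 1)
    (hcore : Core acc N c k h) {Acc Good : List Bool → List Bool → Prop} {e n₀ : ℕ}
    (he : ∀ w y : List Bool, n₀ ≤ w.length →
      (∀ S < N (num w), acc e (num w) (num y) S ≠ 0 → Acc w y) ∧
      (Good w y → ∃ S < N (num w), acc e (num w) (num y) S ≠ 0))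
    {A C : ℝ} (hA : A = (2 * ((k : ℝ) + 1)) ^ 2 * 2 ^ (e + 4)) (hC : C = A * 288 * 2 ^ n₀)
    (n i : ℕ) (α : List Bool) (B : Set (Set (List Bool)))
    (M : Set (List Bool)) (hM : M = L ∨ M = Lᶜ) (S : Set (List Bool))
    (hS : ∀ w ∈ S, w.length = n ∧
      (∀ t ≤ i, ∀ v : List Bool, v.length = c * n →
        Acc w (α ++ ans (fun u => Qu Acc (c * n) α w u ∈ B) t ++ v) →
        Good w (α ++ ans (fun u => Qu Acc (c * n) α w u ∈ B) t ++ v)) ∧
      (Qu Acc (c * n) α w (ans (fun u => Qu Acc (c * n) α w u ∈ B) i) ∈ B ↔ w ∈ M)) :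
    (S.ncard : ℝ) ≤ 2 ^ n / 2 + C ^ (i + 1) * ((α.length : ℝ) + 1) * 2 ^ ((n : ℝ) / 2) *
      (2 ^ ((n : ℝ) + α.length) *
        (({Y ∈ B | ∃ w ∈ S, ∃ t ≤ i,
          Qu Acc (c * n) α w (ans (fun u => Qu Acc (c * n) α w u ∈ B) t) = Y}.ncard : ℝ) + 1) ^
          ((i + 1) * k)) ^ (1 / (2 * (k : ℝ) + 2)) := by
  classical
  have hk0 : (0 : ℝ) ≤ k := Nat.cast_nonneg k
  have hA1 : 1 ≤ A := by
    rw [hA]
    have h1 : (1 : ℝ) ≤ (2 * ((k : ℝ) + 1)) ^ 2 := by nlinarith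
    have h2 : (1 : ℝ) ≤ 2 ^ (e + 4) := one_le_pow₀ (by norm_num)
    nlinarith
  have hn01 : (1 : ℝ) ≤ 2 ^ n₀ := one_le_pow₀ (by norm_num)
  have hm0 : (0 : ℝ) ≤ α.length := Nat.cast_nonneg _
  have hc1 : 1 ≤ C := by rw [hC]; nlinarith
  set B' : Set (Set (List Bool)) := {Y ∈ B | ∃ w ∈ S, ∃ t ≤ i,
          Qu Acc (c * n) α w (ans (fun u => Qu Acc (c * n) α w u ∈ B) t) = Y} with hB'
  obtain ⟨X, hXdef⟩ : ∃ X : ℝ, X = ((α.length : ℝ) + 1) * 2 ^ ((n : ℝ) / 2) *
      (2 ^ ((n : ℝ) + α.length) * ((B'.ncard : ℝ) + 1) ^ ((i + 1) * k)) ^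
        (1 / (2 * (k : ℝ) + 2)) := ⟨_, rfl⟩
  have hX1 : 1 ≤ X := by
    rw [hXdef]
    have h1 : (1 : ℝ) ≤ 2 ^ ((n : ℝ) / 2) := Real.one_le_rpow (by norm_num) (by positivity)
    have h2 : (1 : ℝ) ≤ 2 ^ ((n : ℝ) + α.length) :=
      Real.one_le_rpow (by norm_num) (by positivity)
    have h3 : (1 : ℝ) ≤ ((B'.ncard : ℝ) + 1) ^ ((i + 1) * k) :=
      one_le_pow₀ (by have : (0 : ℝ) ≤ B'.ncard := Nat.cast_nonneg _; linarith)
    have h4 : (1 : ℝ) ≤ (2 ^ ((n : ℝ) + α.length) * ((B'.ncard : ℝ) + 1) ^ ((i + 1) * k)) ^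
        (1 / (2 * (k : ℝ) + 2)) := Real.one_le_rpow (by nlinarith) (by positivity)
    have h5 : (1 : ℝ) ≤ ((α.length : ℝ) + 1) * 2 ^ ((n : ℝ) / 2) := by nlinarith
    nlinarith
  have goal_eq : 2 ^ n / 2 + C ^ (i + 1) * ((α.length : ℝ) + 1) * 2 ^ ((n : ℝ) / 2) *
      (2 ^ ((n : ℝ) + α.length) * ((B'.ncard : ℝ) + 1) ^ ((i + 1) * k)) ^
        (1 / (2 * (k : ℝ) + 2)) = 2 ^ n / 2 + C ^ (i + 1) * X := by
    rw [hXdef]
    ring
  rw [goal_eq]
  rcases Nat.lt_or_ge n n₀ with hn | hn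
  · have h2 := card_le_pow fun w hw => (hS w hw).1
    have h3 : (2 : ℝ) ^ n ≤ 2 ^ n₀ := pow_le_pow_right₀ (by norm_num) hn.le
    have h5 : (0 : ℝ) ≤ 2 ^ n := by positivity
    have h6 : (2 : ℝ) ^ n₀ ≤ C := by rw [hC]; nlinarith
    have h7 : C ≤ C ^ (i + 1) := le_self_pow₀ hc1 (Nat.succ_ne_zero i)
    have h8 : C ^ (i + 1) * 1 ≤ C ^ (i + 1) * X := mul_le_mul_of_nonneg_left hX1 (by positivity)
    linarith
  -- the simulated conversation
  have hq : ∀ w ∈ S, ∀ t ≤ i, ∀ u, u = ans (fun u => Qu Acc (c * n) α w u ∈ B) t →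
      Qu (SimA acc N e) (c * n) α w u = Qu Acc (c * n) α w u := by
    intro w hw t ht u hu
    obtain ⟨h1, h2, -⟩ := hS w hw
    ext v
    simp only [Qu, Set.mem_ofPred_eq]
    refine and_congr_right fun hv => ?_
    obtain ⟨h3, h4⟩ := he w (α ++ u ++ v) (by omega)
    constructor
    · rintro ⟨T, hT, h5⟩
      exact h3 T hT h5
    · intro h5
      refine h4 ?_
      subst hu
      exact h2 t ht v hv h5
  have hans : ∀ w ∈ S, ∀ t ≤ i, ans (fun u => Qu (SimA acc N e) (c * n) α w u ∈ B') t =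
      ans (fun u => Qu Acc (c * n) α w u ∈ B) t := by
    intro w hw
    refine ans_congr fun t ht => ?_
    have h2 := hq w hw t (by omega) _ rfl
    rw [h2]
    constructor
    · intro h3
      exact h3.1
    · intro h3
      exact ⟨h3, w, hw, t, by omega, rfl⟩
  have hsub : S ⊆ {w : List Bool | w.length = n ∧
      (Qu (SimA acc N e) (c * n) α w
        (ans (fun u => Qu (SimA acc N e) (c * n) α w u ∈ B') i) ∈ B' ↔ w ∈ M)} := by
    intro w hw
    obtain ⟨h1, h2, h3⟩ := hS w hw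
    refine ⟨h1, ?_⟩
    rw [hans w hw i le_rfl, hq w hw i le_rfl _ rfl, ← h3]
    constructor
    · intro h4
      exact h4.1
    · intro h4
      exact ⟨h4, w, hw, i, le_rfl, rfl⟩
  have hmain := part1 hX hUS hN hmem hcore (Acc := SimA acc N e) (Good := SimA acc N e)
    (n₀ := 0) (simA_spec acc N e) hA rfl n i α B' (fun _ _ _ _ _ _ h => h) M hM
  refine (card_le_of_subset hsub fun w hw => hw.1).trans (hmain.trans ?_)
  have hfinS : S.Finite := (List.finite_length_eq Bool n).subset fun w hw => (hS w hw).1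
  have hfinB : B'.Finite := by
    refine ((hfinS.prod (Set.finite_Iic i)).image fun p =>
      Qu Acc (c * n) α p.1 (ans (fun u => Qu Acc (c * n) α p.1 u ∈ B) p.2)).subset ?_
    rintro Y ⟨-, w, hw, t, ht, rfl⟩
    exact ⟨(w, t), ⟨hw, ht⟩, rfl⟩
  have hle : ({Y ∈ B' | ∃ w u : List Bool, w.length = n ∧ u.length ≤ i ∧
      Qu (SimA acc N e) (c * n) α w u = Y}.ncard : ℝ) ≤ B'.ncard := by
    have hsub2 : {Y ∈ B' | ∃ w u : List Bool, w.length = n ∧ u.length ≤ i ∧
        Qu (SimA acc N e) (c * n) α w u = Y} ⊆ B' := fun Y hY => hY.1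
    exact_mod_cast Set.ncard_le_ncard hsub2 hfinB
  have hA288 : A * 288 * 2 ^ 0 ≤ C := by
    rw [hC, pow_zero]
    nlinarith
  have hA0 : (0 : ℝ) ≤ A * 288 * 2 ^ 0 := by positivity
  refine add_le_add le_rfl ?_
  rw [hXdef, mul_assoc (_ ^ (i + 1)), mul_assoc (_ ^ (i + 1))]
  refine mul_le_mul (pow_le_pow_left₀ hA0 hA288 _) ?_ (by positivity) (by positivity)
  refine mul_le_mul_of_nonneg_left ?_ (by positivity)
  refine Real.rpow_le_rpow (by positivity) ?_ (by positivity)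
  refine mul_le_mul_of_nonneg_left ?_ (by positivity)
  refine pow_le_pow_left₀ (by positivity) ?_ _
  linarith

/-- **Part 2.** A partner who knows everything. -/
theorem partner_bound (hH : HOL_stmt) (hUS : UQS_stmt) (hK : TLK_stmt) (hT : NUT_stmt)
    (hmem : ∀ w, w ∈ L ↔ h w.length (num w - 2 ^ w.length) % 2 = 1)
    (hY : ∀ e n : ℕ, e ≤ n → ∀ a < 2 ^ ((k + 1) * n + 1),
      Yv (QV acc N c n e a) n (k + 1) (fun z => (-1) ^ h n z) ≤
        (thr (k + 1) n e a (Mv (QV acc N c n e a) n) : ℤ))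
    {Acc Good : List Bool → List Bool → Prop} {e n₀ : ℕ}
    (he : ∀ w y : List Bool, n₀ ≤ w.length →
      (∀ S < N (num w), acc e (num w) (num y) S ≠ 0 → Acc w y) ∧
      (Good w y → ∃ S < N (num w), acc e (num w) (num y) S ≠ 0))
    {A C : ℝ} (hA : A = (2 * ((k : ℝ) + 1)) ^ 2 * 2 ^ (e + 4)) (hC : C = A * 3 * 2 ^ n₀)
    (n i : ℕ) (α : List Bool) (B : Set (List (Set (List Bool))))
    (M : Set (List Bool)) (hM : M = L ∨ M = Lᶜ) (S : Set (List Bool))
    (hS : ∀ w ∈ S, w.length = n ∧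
      (∀ t ≤ i, ∀ v : List Bool, v.length = c * n →
        Acc w (α ++ (talk (Qu Acc (c * n) α w) B t).1 ++ v) →
        Good w (α ++ (talk (Qu Acc (c * n) α w) B t).1 ++ v)) ∧
      ((talk (Qu Acc (c * n) α w) B (i + 1)).2 ∈ B ↔ w ∈ M)) :
    (S.ncard : ℝ) ≤ 2 ^ n / 2 + C * ((α.length : ℝ) + i + 1) * 2 ^ ((n : ℝ) / 2) *
      (2 ^ ((n : ℝ) + α.length + 4 * (i + 1)) *
        ({X | ∃ w ∈ S, (talk (Qu Acc (c * n) α w) B (i + 1)).2 = X}.ncard : ℝ) ^ k) ^
        (1 / (2 * (k : ℝ) + 2)) := by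
  classical
  have hk0 : (0 : ℝ) ≤ k := Nat.cast_nonneg k
  have hA1 : 1 ≤ A := by
    rw [hA]
    have h1 : (1 : ℝ) ≤ (2 * ((k : ℝ) + 1)) ^ 2 := by nlinarith
    have h2 : (1 : ℝ) ≤ 2 ^ (e + 4) := one_le_pow₀ (by norm_num)
    nlinarith
  have hn01 : (1 : ℝ) ≤ 2 ^ n₀ := one_le_pow₀ (by norm_num)
  have hm0 : (0 : ℝ) ≤ α.length := Nat.cast_nonneg _
  have hi0 : (0 : ℝ) ≤ i := Nat.cast_nonneg i
  have hc1 : 1 ≤ C := by rw [hC]; nlinarith
  have hfinS : S.Finite := (List.finite_length_eq Bool n).subset fun w hw => (hS w hw).1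
  set TS : Set (List (Set (List Bool))) := {X | ∃ w ∈ S,
      (talk (Qu Acc (c * n) α w) B (i + 1)).2 = X} with hTS
  have hfin : TS.Finite := by
    refine (hfinS.image fun w => (talk (Qu Acc (c * n) α w) B (i + 1)).2).subset ?_
    rintro X ⟨w, hw, rfl⟩
    exact ⟨w, hw, rfl⟩
  rcases S.eq_empty_or_nonempty with hemp | ⟨w₀, hw₀⟩
  · rw [hemp, Set.ncard_empty, Nat.cast_zero]
    have hC0 : 0 ≤ C := by linarith
    positivity
  have hpos : 1 ≤ TS.ncard := (Set.ncard_pos hfin).2 ⟨_, w₀, hw₀, rfl⟩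
  have hposR : (1 : ℝ) ≤ TS.ncard := by exact_mod_cast hpos
  obtain ⟨X, hXdef⟩ : ∃ X : ℝ, X = ((α.length : ℝ) + i + 1) * 2 ^ ((n : ℝ) / 2) *
      (2 ^ ((n : ℝ) + α.length + 4 * (i + 1)) * (TS.ncard : ℝ) ^ k) ^
        (1 / (2 * (k : ℝ) + 2)) := ⟨_, rfl⟩
  have hX1 : 1 ≤ X := by
    rw [hXdef]
    have h1 : (1 : ℝ) ≤ 2 ^ ((n : ℝ) / 2) := Real.one_le_rpow (by norm_num) (by positivity)
    have h2 : (1 : ℝ) ≤ 2 ^ ((n : ℝ) + α.length + 4 * (i + 1)) :=
      Real.one_le_rpow (by norm_num) (by positivity)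
    have h3 : (1 : ℝ) ≤ (TS.ncard : ℝ) ^ k := one_le_pow₀ hposR
    have h4 : (1 : ℝ) ≤ (2 ^ ((n : ℝ) + α.length + 4 * (i + 1)) * (TS.ncard : ℝ) ^ k) ^
        (1 / (2 * (k : ℝ) + 2)) := Real.one_le_rpow (by nlinarith) (by positivity)
    have h5 : (1 : ℝ) ≤ ((α.length : ℝ) + i + 1) * 2 ^ ((n : ℝ) / 2) := by nlinarith
    nlinarith
  have goal_eq : 2 ^ n / 2 + C * ((α.length : ℝ) + i + 1) * 2 ^ ((n : ℝ) / 2) *
      (2 ^ ((n : ℝ) + α.length + 4 * (i + 1)) * (TS.ncard : ℝ) ^ k) ^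
        (1 / (2 * (k : ℝ) + 2)) = 2 ^ n / 2 + C * X := by
    rw [hXdef]
    ring
  rw [goal_eq]
  rcases Nat.lt_or_ge n n₀ with hn | hn
  · have h2 := card_le_pow fun w hw => (hS w hw).1
    have h3 : (2 : ℝ) ^ n ≤ 2 ^ n₀ := pow_le_pow_right₀ (by norm_num) hn.le
    have h5 : (0 : ℝ) ≤ 2 ^ n := by positivity
    have h6 : (2 : ℝ) ^ n₀ ≤ C := by rw [hC]; nlinarith
    have h8 : C * 1 ≤ C * X := mul_le_mul_of_nonneg_left hX1 (by positivity)
    linarith
  -- the simulated conversation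
  have hq : ∀ w ∈ S, ∀ t ≤ i, ∀ u, u = (talk (Qu Acc (c * n) α w) B t).1 →
      Qu (SimA acc N e) (c * n) α w u = Qu Acc (c * n) α w u := by
    intro w hw t ht u hu
    obtain ⟨h1, h2, -⟩ := hS w hw
    ext v
    simp only [Qu, Set.mem_ofPred_eq]
    refine and_congr_right fun hv => ?_
    obtain ⟨h3, h4⟩ := he w (α ++ u ++ v) (by omega)
    constructor
    · rintro ⟨T, hT, h5⟩
      exact h3 T hT h5
    · intro h5
      refine h4 ?_
      subst hu
      exact h2 t ht v hv h5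
  have htalk : ∀ w ∈ S, ∀ t ≤ i + 1, talk (Qu (SimA acc N e) (c * n) α w) B t =
      talk (Qu Acc (c * n) α w) B t := by
    intro w hw t
    induction t with
    | zero => intro _; rfl
    | succ t ih =>
      intro ht
      have h1 := ih (by omega)
      have h2 := hq w hw t (by omega) _ rfl
      unfold talk
      rw [h1, h2]
  set F : ℕ → List (Set (List Bool)) := fun z =>
    (talk (Qu (SimA acc N e) (c * n) α (wd n z)) B (i + 1)).2 with hF
  have hsub : S ⊆ {w : List Bool | w.length = n ∧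
      ((talk (Qu (SimA acc N e) (c * n) α w) B (i + 1)).2 ∈ TS ∧
      ((talk (Qu (SimA acc N e) (c * n) α w) B (i + 1)).2 ∈ B ↔ w ∈ M))} := by
    intro w hw
    obtain ⟨h1, h2, h3⟩ := hS w hw
    refine ⟨h1, ?_, ?_⟩
    · rw [htalk w hw _ le_rfl]
      exact ⟨w, hw, rfl⟩
    · rw [htalk w hw _ le_rfl]
      exact h3
  refine (card_le_of_subset hsub fun w hw => hw.1).trans ?_
  have hwL : ∀ z < 2 ^ n, wd n z ∈ L ↔ h n z % 2 = 1 := by
    intro z hz
    obtain ⟨h1, h2⟩ := wd_spec hz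
    rw [hmem, h1, h2, Nat.add_sub_cancel_left]
  have hsum : ∀ T₀ : Set (List (Set (List Bool))), T₀ ⊆ TS →
      |∑ z ∈ (range (2 ^ n)).filter (fun z => F z ∈ T₀), (-1 : ℝ) ^ h n z| ≤ C * X := by
    intro T₀ hT₀
    have hnv : nv F n T₀ ≤ TS.ncard :=
      (nv_le_card F n T₀ (hfin.subset hT₀)).trans (Set.ncard_le_ncard hT₀ hfin)
    have h1 := talk_sv hH hUS hK hT hY e n i α B T₀ TS.ncard hpos hnv
    have h2 : ((sv F n T₀ (fun z => (-1) ^ h n z) : ℤ) : ℝ) =
        ∑ z ∈ (range (2 ^ n)).filter (fun z => F z ∈ T₀), (-1 : ℝ) ^ h n z := by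
      unfold sv
      push_cast
      rfl
    rw [← h2]
    refine h1.trans ?_
    rw [← hA]
    calc A * 3 * ((α.length : ℝ) + i + 1) * 2 ^ ((n : ℝ) / 2) *
          (2 ^ ((n : ℝ) + α.length + 4 * (i + 1)) * (TS.ncard : ℝ) ^ k) ^
            (1 / (2 * (k : ℝ) + 2)) = A * 3 * 1 * X := by
          rw [hXdef]
          ring
      _ ≤ A * 3 * 2 ^ n₀ * X := by gcongr
      _ = C * X := by rw [hC]
  have hsum2 : ∀ (Q : ℕ → Prop) (_ : DecidablePred Q) (T₀ : Set (List (Set (List Bool)))),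
      T₀ ⊆ TS → (∀ z, Q z ↔ F z ∈ T₀) →
      |∑ z ∈ (range (2 ^ n)).filter Q, (-1 : ℝ) ^ h n z| ≤ C * X := by
    intro Q _ T₀ hT₀ hQ
    have e1 : (range (2 ^ n)).filter Q = (range (2 ^ n)).filter (fun z => F z ∈ T₀) :=
      filter_congr fun z _ => hQ z
    rw [e1]
    exact hsum T₀ hT₀
  refine count_le2 hwL (fun w => (talk (Qu (SimA acc N e) (c * n) α w) B (i + 1)).2 ∈ TS)
    (fun w => (talk (Qu (SimA acc N e) (c * n) α w) B (i + 1)).2 ∈ B) M hM ?_ ?_
  · exact hsum2 _ _ (TS ∩ B) Set.inter_subset_left fun z => Iff.rfl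
  · exact hsum2 _ _ (TS ∩ Bᶜ) Set.inter_subset_left fun z => Iff.rfl

end

end Pool.Agent.Helper20.NS5
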