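import Pool.Agent.Helper20.NS5.Final
import Pool.Agent.Helper20.NS5.Goals3
import Pool.Agent.Helper20.MH.Final

/-!
# Machines with several heads which ask queries

The statements for Turing machines with several heads on tapes of any dimension.
-/

namespace Pool.Agent.Helper20.NS5

open Pool.Agent.Helper65.LinSpace
open Pool.Agent.Helper20.MH (MultiHead)

variable {D K : ℕ} (A : MultiHead D K) (m : ℕ)

/-- The query of the machine `A` with the advice `α` on the input word `w` after the answers `u`: the
set of the words `v` of length `m` such that `A` accepts `w` with the guess `α u v` (at some time). It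
can be read as a word with `2 ^ m` letters which is given letter by letter. -/
def query (α w u : List Bool) : Set (List Bool) :=
  {v | v.length = m ∧ ∃ r, A.AcceptsAt w (α ++ u ++ v) r}

/-- `A` keeps the bounds `Within C` when it computes the query after the answers `u`: if it accepts
`w` with the guess `α u v` at some time then it accepts it within the bounds. -/
def Keeps (C : ℝ) (α w u : List Bool) : Prop :=
  ∀ v : List Bool, v.length = m → (∃ r, A.AcceptsAt w (α ++ u ++ v) r) →
    A.Within C w (α ++ u ++ v)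

/-! ### Queries to a set -/

open Classical in
/-- The answers to the first `i` queries of `A` on the input word `w`, if the answer to a query is
yes if and only if it is in the set `B`. -/
noncomputable def answers (B : Set (Set (List Bool))) (α w : List Bool) : ℕ → List Bool
  | 0 => []
  | i + 1 => answers B α w i ++ [decide (query A m α w (answers B α w i) ∈ B)]

/-- On all words of the set `S`, which have the length `n`, the machine `A` with the advice `α` and
`i + 1` adaptive queries to `B` keeps the bounds, and the last answer is yes if and only if the word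
is in `M`. -/
def Reduces (C : ℝ) (n i : ℕ) (α : List Bool) (B : Set (Set (List Bool)))
    (M S : Set (List Bool)) : Prop :=
  ∀ w ∈ S, w.length = n ∧ (∀ t ≤ i, Keeps A m C α w (answers A m B α w t)) ∧
    (query A m α w (answers A m B α w i) ∈ B ↔ w ∈ M)

/-- The number of the elements of `B` which are asked by the first `i + 1` queries on words of `S`. -/
noncomputable def asked (i : ℕ) (α : List Bool) (B : Set (Set (List Bool)))
    (S : Set (List Bool)) : ℕ :=
  {Y ∈ B | ∃ w ∈ S, ∃ t ≤ i, query A m α w (answers A m B α w t) = Y}.ncard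

/-! ### A partner who knows everything -/

open Classical in
/-- The answers to the first `i` queries of `A` on the input word `w`, and the list of these queries,
if the answer to a query is yes if and only if the list of all queries up to this one is in `B`. -/
noncomputable def conversation (B : Set (List (Set (List Bool)))) (α w : List Bool) :
    ℕ → List Bool × List (Set (List Bool))
  | 0 => ([], [])
  | i + 1 =>
    ((conversation B α w i).1 ++ [decide ((conversation B α w i).2 ++
        [query A m α w (conversation B α w i).1] ∈ B)],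
      (conversation B α w i).2 ++ [query A m α w (conversation B α w i).1])

/-- On all words of the set `S`, which have the length `n`, the machine `A` with the advice `α` and
`i + 1` queries keeps the bounds, and the last answer of the partner is yes if and only if the word is
in `M`. -/
def Decides (C : ℝ) (n i : ℕ) (α : List Bool) (B : Set (List (Set (List Bool))))
    (M S : Set (List Bool)) : Prop :=
  ∀ w ∈ S, w.length = n ∧ (∀ t ≤ i, Keeps A m C α w (conversation A m B α w t).1) ∧
    ((conversation A m B α w (i + 1)).2 ∈ B ↔ w ∈ M)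

/-- The number of the different lists of `i + 1` queries for the words of `S`. -/
noncomputable def lists (i : ℕ) (α : List Bool) (B : Set (List (Set (List Bool))))
    (S : Set (List Bool)) : ℕ :=
  {X | ∃ w ∈ S, (conversation A m B α w (i + 1)).2 = X}.ncard

variable {A m}

theorem answers_eq (B : Set (Set (List Bool))) (α w : List Bool) (i : ℕ) :
    answers A m B α w i =
      ans (fun u => Qu (fun w y => ∃ r, A.AcceptsAt w y r) m α w u ∈ B) i := by
  induction i with
  | zero => rfl
  | succ i ih =>
    unfold answers ans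
    rw [ih]
    rfl

theorem conversation_eq (B : Set (List (Set (List Bool)))) (α w : List Bool) (i : ℕ) :
    conversation A m B α w i =
      talk (Qu (fun w y => ∃ r, A.AcceptsAt w y r) m α w) B i := by
  induction i with
  | zero => rfl
  | succ i ih =>
    unfold conversation talk
    rw [ih]
    rfl

open Pool.Agent.Helper20.MH in
theorem sparse_out (hCO : CO1_stmt) (c k : ℕ) :
    ∃ L : Set (List Bool), DLINSPACE L ∧
      ∀ (D K : ℕ), 0 < D → 0 < K → ∀ (A : MultiHead D K) (C : ℝ),
        (∃ c' : ℝ, ∀ (n i : ℕ) (α : List Bool) (B : Set (Set (List Bool)))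
          (M S : Set (List Bool)), M = L ∨ M = Lᶜ → Reduces A (c * n) C n i α B M S →
          (S.ncard : ℝ) ≤ 2 ^ n / 2 + c' ^ (i + 1) * ((α.length : ℝ) + 1) * 2 ^ ((n : ℝ) / 2) *
            (2 ^ ((n : ℝ) + α.length) * ((asked A (c * n) i α B S : ℝ) + 1) ^
              ((i + 1) * k)) ^ (1 / (2 * (k : ℝ) + 2))) ∧
        ∀ (a : ℕ) (ε : ℝ), 0 < ε → ∃ δ : ℝ, 0 < δ ∧ ∃ n₀ : ℕ, ∀ n ≥ n₀,
          ∀ (i : ℕ) (α : List Bool) (B : Set (Set (List Bool)))
          (M S : Set (List Bool)), M = L ∨ M = Lᶜ → Reduces A (c * n) C n i α B M S →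
          ((i : ℝ) + 1) * Real.logb 2 n ≤ δ * n → (α.length : ℝ) ≤ (k - ε) * n →
          (asked A (c * n) i α B S : ℝ) ≤ (n : ℝ) ^ a →
          (S.ncard : ℝ) ≤ 2 ^ n / 2 + 2 ^ ((1 - δ) * (n : ℝ)) := by
  obtain ⟨L, h1, h2⟩ := sparse_main (accM Pool.Agent.Helper65.RT.theSim) NM
    (LS.accM Pool.Agent.Helper65.RT.theSim parts) LS.NM c k
  refine ⟨L, h1, fun D K hD hK A C => ?_⟩
  have main : ∃ c' : ℝ, ∀ (n i : ℕ) (α : List Bool) (B : Set (Set (List Bool)))
          (M S : Set (List Bool)), M = L ∨ M = Lᶜ → Reduces A (c * n) C n i α B M S →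
          (S.ncard : ℝ) ≤ 2 ^ n / 2 + c' ^ (i + 1) * ((α.length : ℝ) + 1) * 2 ^ ((n : ℝ) / 2) *
            (2 ^ ((n : ℝ) + α.length) * ((asked A (c * n) i α B S : ℝ) + 1) ^
              ((i + 1) * k)) ^ (1 / (2 * (k : ℝ) + 2)) := by
    obtain ⟨c', h3⟩ := h2 (fun w y => ∃ r, A.AcceptsAt w y r) (A.Within C)
      (exists_goodM Pool.Agent.Helper65.RT.theSim parts hD hK A C)
    refine ⟨c', fun n i α B M S hM hS => ?_⟩
    unfold Reduces at hS
    unfold asked
    simp only [answers_eq] at hS ⊢
    exact h3 n i α B M hM S hS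
  refine ⟨main, fun a ε hε => ?_⟩
  obtain ⟨c', h3⟩ := main
  obtain ⟨δ, hδ, n₀, h4⟩ := hCO k a c' ε hε
  refine ⟨δ, hδ, n₀, fun n hn i α B M S hM hS hi hα hB => ?_⟩
  refine (h3 n i α B M S hM hS).trans (add_le_add le_rfl ?_)
  exact h4 n hn (i + 1) α.length (asked A (c * n) i α B S) (by push_cast; exact hi) hα hB

open Pool.Agent.Helper20.MH in
theorem partner_out (hCO : CO2_stmt) (c k : ℕ) (hk : 0 < k) :
    ∃ L : Set (List Bool), DLINSPACE L ∧
      ∀ (D K : ℕ), 0 < D → 0 < K → ∀ (A : MultiHead D K) (C : ℝ),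
        (∃ c' : ℝ, ∀ (n i : ℕ) (α : List Bool) (B : Set (List (Set (List Bool))))
          (M S : Set (List Bool)), M = L ∨ M = Lᶜ → Decides A (c * n) C n i α B M S →
          (S.ncard : ℝ) ≤ 2 ^ n / 2 + c' * ((α.length : ℝ) + i + 1) * 2 ^ ((n : ℝ) / 2) *
            (2 ^ ((n : ℝ) + α.length + 4 * (i + 1)) *
              (lists A (c * n) i α B S : ℝ) ^ k) ^ (1 / (2 * (k : ℝ) + 2))) ∧
        ∀ ε : ℝ, 0 < ε → ∃ δ : ℝ, 0 < δ ∧ ∃ n₀ : ℕ, ∀ n ≥ n₀,
          ∀ (i : ℕ) (α : List Bool) (B : Set (List (Set (List Bool))))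
          (M S : Set (List Bool)), M = L ∨ M = Lᶜ → Decides A (c * n) C n i α B M S →
          (α.length : ℝ) + 4 * (i + 1) ≤ ε * k * n →
          (lists A (c * n) i α B S : ℝ) ≤ 2 ^ ((1 - 2 * ε) * (n : ℝ)) →
          (S.ncard : ℝ) ≤ 2 ^ n / 2 + 2 ^ ((1 - δ) * (n : ℝ)) := by
  obtain ⟨L, h1, h2⟩ := partner_main (accM Pool.Agent.Helper65.RT.theSim) NM
    (LS.accM Pool.Agent.Helper65.RT.theSim parts) LS.NM c k
  refine ⟨L, h1, fun D K hD hK A C => ?_⟩
  have main : ∃ c' : ℝ, ∀ (n i : ℕ) (α : List Bool) (B : Set (List (Set (List Bool))))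
          (M S : Set (List Bool)), M = L ∨ M = Lᶜ → Decides A (c * n) C n i α B M S →
          (S.ncard : ℝ) ≤ 2 ^ n / 2 + c' * ((α.length : ℝ) + i + 1) * 2 ^ ((n : ℝ) / 2) *
            (2 ^ ((n : ℝ) + α.length + 4 * (i + 1)) *
              (lists A (c * n) i α B S : ℝ) ^ k) ^ (1 / (2 * (k : ℝ) + 2)) := by
    obtain ⟨c', h3⟩ := h2 (fun w y => ∃ r, A.AcceptsAt w y r) (A.Within C)
      (exists_goodM Pool.Agent.Helper65.RT.theSim parts hD hK A C)
    refine ⟨c', fun n i α B M S hM hS => ?_⟩
    unfold Decides at hS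
    unfold lists
    simp only [conversation_eq] at hS ⊢
    exact h3 n i α B M hM S hS
  refine ⟨main, fun ε hε => ?_⟩
  obtain ⟨c', h3⟩ := main
  obtain ⟨δ, hδ, n₀, h4⟩ := hCO k c' ε hk hε
  refine ⟨δ, hδ, n₀, fun n hn i α B M S hM hS hi hB => ?_⟩
  refine (h3 n i α B M S hM hS).trans (add_le_add le_rfl ?_)
  exact h4 n hn i α.length (lists A (c * n) i α B S) hi hB

end Pool.Agent.Helper20.NS5
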